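import Mathlib

/-!
# Gordan's alternative relative to a subspace
-/

namespace Pool.Agent.helper13.Orn

theorem gordan {L W : Type*} [Fintype L] [AddCommGroup W] [Module ℝ W] [FiniteDimensional ℝ W]
    (v : L → W) (A : L → Prop) (T : Submodule ℝ W) :
    (∃ f : W →ₗ[ℝ] ℝ, (∀ t ∈ T, f t = 0) ∧ ∀ s, A s → 0 < f (v s)) ∨
    (∃ γ : L → ℝ, (∀ s, 0 ≤ γ s) ∧ (∀ s, ¬ A s → γ s = 0) ∧ (∃ s, 0 < γ s) ∧
      ∑ s, γ s • v s ∈ T) := by
  classical
  let n := Module.finrank ℝ (W ⧸ T)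
  let e : (W ⧸ T) ≃ₗ[ℝ] (Fin n → ℝ) := LinearEquiv.ofFinrankEq _ _ (by simp [n])
  let p : L → (Fin n → ℝ) := fun s => e (T.mkQ (v s))
  let S : Set (L → ℝ) := stdSimplex ℝ L ∩ {w | ∀ s, ¬ A s → w s = 0}
  let Φ : (L → ℝ) →ₗ[ℝ] (Fin n → ℝ) := Fintype.linearCombination ℝ p
  have hΦ : ∀ w, Φ w = ∑ s, w s • p s := fun w => by
    simp [Φ, Fintype.linearCombination_apply]
  have hSc : IsCompact S := by
    apply (isCompact_stdSimplex ℝ L).inter_right
    have : {w : L → ℝ | ∀ s, ¬ A s → w s = 0} = ⋂ s, ⋂ (_ : ¬ A s), {w | w s = 0} := by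
      ext w; simp
    rw [this]
    refine isClosed_iInter fun s => isClosed_iInter fun _ => ?_
    exact isClosed_eq (continuous_apply s) continuous_const
  have hSv : Convex ℝ S := by
    apply (convex_stdSimplex ℝ L).inter
    intro a ha b hb α β _ _ _ s hs
    simp [ha s hs, hb s hs]
  have hKc : IsCompact (Φ '' S) := hSc.image (LinearMap.continuous_of_finiteDimensional Φ)
  have hKv : Convex ℝ (Φ '' S) := hSv.linear_image Φ
  by_cases h0 : (0 : Fin n → ℝ) ∈ Φ '' S
  · right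
    obtain ⟨w, ⟨⟨hw0, hw1⟩, hwA⟩, hw⟩ := h0
    refine ⟨w, hw0, hwA, ?_, ?_⟩
    · by_contra hcon
      have : ∀ s, w s = 0 := fun s => le_antisymm (not_lt.mp fun h => hcon ⟨s, h⟩) (hw0 s)
      simp [this] at hw1
    · rw [hΦ] at hw
      have : e (T.mkQ (∑ s, w s • v s)) = 0 := by
        rw [map_sum, map_sum, ← hw]
        exact Finset.sum_congr rfl fun s _ => by simp [p]
      rw [LinearEquiv.map_eq_zero_iff, Submodule.mkQ_apply, Submodule.Quotient.mk_eq_zero] at this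
      exact this
  · left
    obtain ⟨f, u, hu0, hu⟩ := geometric_hahn_banach_point_closed hKv hKc.isClosed h0
    rw [map_zero] at hu0
    refine ⟨(f : (Fin n → ℝ) →ₗ[ℝ] ℝ) ∘ₗ (e : (W ⧸ T) →ₗ[ℝ] (Fin n → ℝ)) ∘ₗ T.mkQ, ?_, ?_⟩
    · intro t ht
      have : T.mkQ t = 0 := by simpa using ht
      simp only [LinearMap.comp_apply, this, map_zero]
    · intro s hs
      have hmem : (Pi.single s (1 : ℝ)) ∈ S := by
        refine ⟨single_mem_stdSimplex ℝ s, ?_⟩
        intro r hr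
        have : r ≠ s := fun h => hr (h ▸ hs)
        simp [this]
      have := hu _ ⟨_, hmem, rfl⟩
      rw [hΦ] at this
      have e2 : ∑ r, (Pi.single s (1 : ℝ) : L → ℝ) r • p r = p s := by
        rw [Finset.sum_eq_single s]
        · simp
        · intro b _ hb; simp [hb]
        · intro h; exact absurd (Finset.mem_univ _) h
      rw [e2] at this
      have h3 : (0 : ℝ) < f (p s) := hu0.trans this
      simpa [p] using h3

end Pool.Agent.helper13.Orn
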