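import Mathlib
import Pool.Agent.helper13.Orn.Gordan

/-!
# Abstract polytopal realisations of a finite poset and their local structure
-/

namespace Pool.Agent.helper13.Orn

/-- The part of the information in a polytopal realisation of `L` that we use. -/
structure Rlz (L W : Type*) [PartialOrder L] [Fintype L] [AddCommGroup W] [Module ℝ W] where
  pos : L → W
  nb : L → L → Prop
  c : W →ₗ[ℝ] ℝ
  nb_symm : ∀ {x y}, nb x y → nb y x
  nb_cmp : ∀ {x y}, nb x y → x < y ∨ y < x
  nb_cov : ∀ {x y}, x ⋖ y → nb x y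
  c_lt : ∀ {x y}, x < y → c (pos x) < c (pos y)
  gen : ∀ x y, ∃ μ : L → ℝ, (∀ s, 0 ≤ μ s) ∧ (∀ s, ¬ nb x s → μ s = 0) ∧
    pos y - pos x = ∑ s, μ s • (pos s - pos x)
  ray : ∀ x s, nb x s → ∀ (α : ℝ) (μ : L → ℝ), 0 ≤ α → (∀ r, 0 ≤ μ r) →
    α • (pos s - pos x) = ∑ r, μ r • (pos r - pos x) → ∀ r, r ≠ x → r ≠ s → μ r = 0
  ext : ∀ x (μ : L → ℝ), (∀ r, 0 ≤ μ r) → ∑ r, μ r • (pos r - pos x) = 0 →
    ∀ r, r ≠ x → μ r = 0

namespace Rlz

variable {L W : Type*} [PartialOrder L] [Fintype L] [AddCommGroup W] [Module ℝ W]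
variable (R : Rlz L W)

/-- relative position -/
def d (x y : L) : W := R.pos y - R.pos x

theorem d_self (x : L) : R.d x x = 0 := sub_self _

theorem nb_ne {x y : L} (h : R.nb x y) : x ≠ y := by
  rintro rfl
  rcases R.nb_cmp h with h | h <;> exact absurd h (lt_irrefl _)

theorem c_d_pos {x y : L} (h : x < y) : 0 < R.c (R.d x y) := by
  unfold d; rw [map_sub]; linarith [R.c_lt h]

theorem c_d_neg {x y : L} (h : y < x) : R.c (R.d x y) < 0 := by
  unfold d; rw [map_sub]; linarith [R.c_lt h]

theorem d_ne {x y : L} (h : x ≠ y) : R.d x y ≠ 0 := by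
  classical
  intro h0
  have := R.ext x (fun r => if r = y then 1 else 0) (fun r => by split_ifs <;> norm_num) (by
    simp only [ite_smul, one_smul, zero_smul, Finset.sum_ite_eq', Finset.mem_univ, if_true]
    exact h0) y h.symm
  simp at this

/-- the dual realisation -/
def dual : Rlz Lᵒᵈ W where
  pos := fun x => R.pos (OrderDual.ofDual x)
  nb := fun x y => R.nb (OrderDual.ofDual x) (OrderDual.ofDual y)
  c := - R.c
  nb_symm := fun h => R.nb_symm h
  nb_cmp := fun h => (R.nb_cmp h).symm
  nb_cov := fun h => R.nb_symm (R.nb_cov h.ofDual)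
  c_lt := fun h => by
    simp only [LinearMap.neg_apply, neg_lt_neg_iff]
    exact R.c_lt h
  gen := R.gen
  ray := R.ray
  ext := R.ext

/-- a functional nonnegative on the neighbours, whose zero neighbours are above `x`, is
nonnegative and vanishes only above `x` -/
theorem face_up {x : L} (f : W →ₗ[ℝ] ℝ) (h0 : ∀ s, R.nb x s → 0 ≤ f (R.d x s))
    (hup : ∀ s, R.nb x s → f (R.d x s) = 0 → x < s) :
    (∀ y, 0 ≤ f (R.d x y)) ∧ ∀ y, f (R.d x y) = 0 → x ≤ y := by
  have hnn : ∀ y, 0 ≤ f (R.d x y) := by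
    intro y
    obtain ⟨μ, hμ, hs, e⟩ := R.gen x y
    unfold d
    rw [e, map_sum]
    refine Finset.sum_nonneg fun s _ => ?_
    rw [map_smul, smul_eq_mul]
    by_cases h : R.nb x s
    · exact mul_nonneg (hμ s) (h0 s h)
    · rw [hs s h, zero_mul]
  refine ⟨hnn, ?_⟩
  -- `x` is the unique `c`-minimum of the zero set
  have hmin : ∀ y, y ≠ x → f (R.d x y) = 0 → R.c (R.pos x) < R.c (R.pos y) := by
    intro y hyx hy
    obtain ⟨μ, hμ, hs, e⟩ := R.gen x y
    have e1 : ∑ s, μ s * f (R.d x s) = 0 := by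
      rw [← hy]
      unfold d
      rw [e, map_sum]
      exact Finset.sum_congr rfl fun s _ => by rw [map_smul, smul_eq_mul]
    have e2 : ∀ s, μ s * f (R.d x s) = 0 := by
      have := (Finset.sum_eq_zero_iff_of_nonneg (s := Finset.univ)
        (f := fun s => μ s * f (R.d x s)) (fun s _ => ?_)).mp e1
      · exact fun s => this s (Finset.mem_univ s)
      · exact mul_nonneg (hμ s) (hnn s)
    have e3 : ∀ s, 0 ≤ μ s * R.c (R.d x s) := by
      intro s
      by_cases h : μ s = 0
      · rw [h, zero_mul]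
      · have hnb : R.nb x s := by
          by_contra hc; exact h (hs s hc)
        have hf : f (R.d x s) = 0 := by
          rcases mul_eq_zero.mp (e2 s) with h' | h'
          · exact absurd h' h
          · exact h'
        exact mul_nonneg (hμ s) (R.c_d_pos (hup s hnb hf)).le
    have e4 : R.c (R.d x y) = ∑ s, μ s * R.c (R.d x s) := by
      conv_lhs => unfold d
      rw [e, map_sum]
      exact Finset.sum_congr rfl fun s _ => by rw [map_smul, smul_eq_mul]; rfl
    have e5 : 0 ≤ R.c (R.d x y) := by rw [e4]; exact Finset.sum_nonneg fun s _ => e3 s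
    rcases e5.lt_or_eq with h | h
    · unfold d at h; rw [map_sub] at h; linarith
    · exfalso
      rw [e4] at h
      have e6 := (Finset.sum_eq_zero_iff_of_nonneg (s := Finset.univ)
        (f := fun s => μ s * R.c (R.d x s)) (fun s _ => e3 s)).mp h.symm
      have e7 : ∀ s, μ s = 0 := by
        intro s
        by_contra hne
        have hnb : R.nb x s := by
          by_contra hc; exact hne (hs s hc)
        have hf : f (R.d x s) = 0 := by
          rcases mul_eq_zero.mp (e2 s) with h' | h'
          · exact absurd h' hne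
          · exact h'
        have hc := R.c_d_pos (hup s hnb hf)
        rcases mul_eq_zero.mp (e6 s (Finset.mem_univ s)) with h' | h'
        · exact hne h'
        · exact hc.ne' h'
      have e8 : R.d x y = 0 := by
        unfold d
        rw [e]
        exact Finset.sum_eq_zero fun s _ => by rw [e7 s, zero_smul]
      exact R.d_ne hyx.symm e8
  -- descend
  have : WellFounded ((· < ·) : L → L → Prop) := wellFounded_lt
  intro y
  induction y using this.induction with
  | _ y ih =>
    intro hy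
    by_cases hyx : y = x
    · exact hyx ▸ le_refl _
    have hlt := hmin y hyx hy
    obtain ⟨μ, hμ, hs, e⟩ := R.gen y x
    have key : ∀ s, f (R.pos s - R.pos y) = f (R.d x s) := by
      intro s
      unfold d at hy ⊢
      rw [map_sub] at hy ⊢
      rw [map_sub]; linarith
    have e1 : ∑ s, μ s * f (R.d x s) = 0 := by
      have : f (R.pos x - R.pos y) = 0 := by rw [key, R.d_self, map_zero]
      rw [e, map_sum] at this
      rw [← this]
      exact Finset.sum_congr rfl fun s _ => by rw [map_smul, smul_eq_mul, key]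
    have e2 : ∀ s, μ s * f (R.d x s) = 0 := by
      have := (Finset.sum_eq_zero_iff_of_nonneg (s := Finset.univ)
        (f := fun s => μ s * f (R.d x s)) (fun s _ => ?_)).mp e1
      · exact fun s => this s (Finset.mem_univ s)
      · exact mul_nonneg (hμ s) (hnn s)
    have e3 : ∑ s, μ s * R.c (R.pos s - R.pos y) < 0 := by
      have : R.c (R.pos x - R.pos y) < 0 := by rw [map_sub]; linarith
      rw [e, map_sum] at this
      refine lt_of_eq_of_lt (Finset.sum_congr rfl fun s _ => ?_) this
      rw [map_smul, smul_eq_mul]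
    obtain ⟨s, _, hs'⟩ : ∃ s ∈ Finset.univ, μ s * R.c (R.pos s - R.pos y) < 0 := by
      by_contra hcon
      simp only [Finset.mem_univ, true_and, not_exists, not_lt] at hcon
      exact absurd (Finset.sum_nonneg fun s _ => hcon s) (not_le.mpr e3)
    have hμs : μ s ≠ 0 := by
      intro h; rw [h, zero_mul] at hs'; exact lt_irrefl _ hs'
    have hnb : R.nb y s := by
      by_contra hc; exact hμs (hs s hc)
    have hf : f (R.d x s) = 0 := by
      rcases mul_eq_zero.mp (e2 s) with h' | h'
      · exact absurd h' hμs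
      · exact h'
    have hsy : s < y := by
      rcases R.nb_cmp hnb with h | h
      · exfalso
        have h1 := R.c_lt h
        have h2 : 0 ≤ μ s * R.c (R.pos s - R.pos y) := by
          apply mul_nonneg (hμ s)
          rw [map_sub]; linarith
        linarith
      · exact h
    exact (ih s hsy hf).trans hsy.le


theorem ray2 {x s a : L} (hnb : R.nb x s) {α κ : ℝ} {μ : L → ℝ} (hα : 0 ≤ α) (hκ : 0 ≤ κ)
    (hμ : ∀ r, 0 ≤ μ r)
    (e : α • R.d x s = ∑ r, μ r • R.d x r + κ • R.d x a) :
    (∀ r, r ≠ x → r ≠ s → μ r = 0) ∧ (a ≠ x → a ≠ s → κ = 0) := by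
  classical
  have h := R.ray x s hnb α (fun r => μ r + if r = a then κ else 0) hα
    (fun r => add_nonneg (hμ r) (by split_ifs <;> simp [hκ])) (by
      unfold d at e
      rw [e]
      simp only [add_smul, Finset.sum_add_distrib, ite_smul, zero_smul, Finset.sum_ite_eq',
        Finset.mem_univ, if_true])
  constructor
  · intro r h1 h2
    have := h r h1 h2
    have h3 : 0 ≤ (if r = a then κ else 0) := by split_ifs <;> simp [hκ]
    linarith [hμ r]
  · intro h1 h2
    have := h a h1 h2
    simp only [if_true] at this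
    linarith [hμ a]

theorem ext2 {x a b : L} {κ η : ℝ} {μ : L → ℝ} (hκ : 0 ≤ κ) (hη : 0 ≤ η)
    (hμ : ∀ r, 0 ≤ μ r)
    (e : ∑ r, μ r • R.d x r + κ • R.d x a + η • R.d x b = 0) :
    (∀ r, r ≠ x → μ r = 0) := by
  classical
  have h := R.ext x (fun r => μ r + (if r = a then κ else 0) + (if r = b then η else 0))
    (fun r => add_nonneg (add_nonneg (hμ r) (by split_ifs <;> simp [hκ]))
      (by split_ifs <;> simp [hη])) (by
      unfold d at e
      rw [← e]
      simp only [add_smul, Finset.sum_add_distrib, ite_smul, zero_smul, Finset.sum_ite_eq',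
        Finset.mem_univ, if_true])
  intro r h1
  have := h r h1
  have h3 : 0 ≤ (if r = a then κ else 0) := by split_ifs <;> simp [hκ]
  have h4 : 0 ≤ (if r = b then η else 0) := by split_ifs <;> simp [hη]
  linarith [hμ r]

theorem rel_or_f [FiniteDimensional ℝ W] (x a b : L) :
    (∃ f : W →ₗ[ℝ] ℝ, f (R.d x a) = 0 ∧ f (R.d x b) = 0 ∧
      ∀ s, R.nb x s → s ≠ a → s ≠ b → 0 < f (R.d x s)) ∨
    (∃ (γ : L → ℝ) (α β : ℝ), (∀ s, 0 ≤ γ s) ∧ (∀ s, γ s ≠ 0 → R.nb x s ∧ s ≠ a ∧ s ≠ b) ∧
      (∃ s, 0 < γ s) ∧ ∑ s, γ s • R.d x s = α • R.d x a + β • R.d x b) := by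
  rcases gordan (fun s => R.d x s) (fun s => R.nb x s ∧ s ≠ a ∧ s ≠ b)
    (Submodule.span ℝ {R.d x a, R.d x b}) with ⟨f, h1, h2⟩ | ⟨γ, h1, h2, h3, h4⟩
  · left
    refine ⟨f, h1 _ (Submodule.subset_span (by simp)), h1 _ (Submodule.subset_span (by simp)), ?_⟩
    intro s hs ha hb
    exact h2 s ⟨hs, ha, hb⟩
  · right
    rw [Submodule.mem_span_pair] at h4
    obtain ⟨α, β, h4⟩ := h4
    refine ⟨γ, α, β, h1, ?_, h3, h4.symm⟩
    intro s hs
    by_contra hc
    exact hs (h2 s hc)

theorem coef_pos {x a b : L} (ha : R.nb x a) (hb : R.nb x b) {γ : L → ℝ}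
    {α β : ℝ} (h1 : ∀ s, 0 ≤ γ s) (h2 : ∀ s, γ s ≠ 0 → R.nb x s ∧ s ≠ a ∧ s ≠ b)
    (h3 : ∃ s, 0 < γ s) (e : ∑ s, γ s • R.d x s = α • R.d x a + β • R.d x b) :
    0 < α ∧ 0 < β := by
  -- one-sided version
  have main : ∀ (a b : L) (α β : ℝ), R.nb x a → R.nb x b →
      (∀ s, γ s ≠ 0 → R.nb x s ∧ s ≠ a ∧ s ≠ b) →
      ∑ s, γ s • R.d x s = α • R.d x a + β • R.d x b → 0 < α := by
    intro a b α β _ hb h2 e
    by_contra hα
    rw [not_lt] at hα
    obtain ⟨s, hs⟩ := h3
    obtain ⟨n1, n2, n3⟩ := h2 s hs.ne'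
    rcases le_or_gt 0 β with hβ | hβ
    · have := (R.ray2 (a := a) hb (α := β) (κ := -α) hβ (by linarith) h1 (by
        rw [e, neg_smul]; abel)).1 s (R.nb_ne n1).symm n3
      exact hs.ne' this
    · have := R.ext2 (x := x) (a := a) (b := b) (κ := -α) (η := -β) (by linarith) (by linarith) h1
        (by rw [e, neg_smul, neg_smul]; abel) s (R.nb_ne n1).symm
      exact hs.ne' this
  refine ⟨main a b α β ha hb h2 e, main b a β α hb ha (fun s hs => ?_) (by rw [e, add_comm])⟩
  obtain ⟨n1, n2, n3⟩ := h2 s hs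
  exact ⟨n1, n3, n2⟩

/-- if all the terms are below `x`, the sum has `c ≤ 0` -/
theorem sum_c_nonpos {x : L} {μ : L → ℝ} (hμ : ∀ s, 0 ≤ μ s) (h : ∀ s, μ s ≠ 0 → s ≤ x) :
    R.c (∑ s, μ s • R.d x s) ≤ 0 := by
  rw [map_sum]
  refine Finset.sum_nonpos fun s _ => ?_
  rw [map_smul, smul_eq_mul]
  by_cases h0 : μ s = 0
  · rw [h0, zero_mul]
  · rcases (h s h0).lt_or_eq with h' | h'
    · exact mul_nonpos_of_nonneg_of_nonpos (hμ s) (R.c_d_neg h').le
    · rw [h', R.d_self, map_zero, mul_zero]

end Rlz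

/-- an upper interval that is a square -/
structure UpSq {L : Type*} [PartialOrder L] (x u v t : L) : Prop where
  mem : ∀ y, x ≤ y → y = x ∨ y = u ∨ y = v ∨ y = t
  xu : x < u
  xv : x < v
  uv : ¬ u ≤ v
  vu : ¬ v ≤ u
  ut : u < t
  vt : v < t

namespace UpSq

variable {L : Type*} [PartialOrder L] {x u v t : L}

theorem symm (h : UpSq x u v t) : UpSq x v u t where
  mem y hy := by
    rcases h.mem y hy with h | h | h | h
    · exact Or.inl h
    · exact Or.inr (Or.inr (Or.inl h))
    · exact Or.inr (Or.inl h)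
    · exact Or.inr (Or.inr (Or.inr h))
  xu := h.xv
  xv := h.xu
  uv := h.vu
  vu := h.uv
  ut := h.vt
  vt := h.ut

theorem cov (h : UpSq x u v t) : x ⋖ u := by
  refine ⟨h.xu, fun z h1 h2 => ?_⟩
  rcases h.mem z h1.le with e | e | e | e
  · exact h1.ne' e
  · exact h2.ne e
  · exact h.vu (e ▸ h2.le)
  · exact absurd (h2.trans h.ut) (by rw [e]; exact lt_irrefl _)

theorem cov_t (h : UpSq x u v t) : u ⋖ t := by
  refine ⟨h.ut, fun z h1 h2 => ?_⟩
  rcases h.mem z (h.xu.trans h1).le with e | e | e | e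
  · exact absurd (h.xu.trans h1) (by rw [e]; exact lt_irrefl _)
  · exact h1.ne' e
  · exact h.uv (e ▸ h1.le)
  · exact h2.ne e

theorem ne_uv (h : UpSq x u v t) : u ≠ v := fun e => h.uv (e ▸ le_refl _)

theorem xt (h : UpSq x u v t) : x < t := h.xu.trans h.ut

end UpSq

namespace Rlz

variable {L W : Type*} [PartialOrder L] [Fintype L] [AddCommGroup W] [Module ℝ W]
variable (R : Rlz L W)

/-- No face has vertex set exactly `{x,u,v}`. -/
theorem no_three {x u v t : L} (h : UpSq x u v t) (f : W →ₗ[ℝ] ℝ)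
    (hnn : ∀ y, 0 ≤ f (R.d x y)) (hz : ∀ y, f (R.d x y) = 0 → y = x ∨ y = u ∨ y = v)
    (hu : f (R.d x u) = 0) (hv : f (R.d x v) = 0) : False := by
  classical
  have nu : R.nb x u := R.nb_cov h.cov
  have nv : R.nb x v := R.nb_cov h.symm.cov
  obtain ⟨μ, hμ, hs, e⟩ := R.gen u v
  have key : ∀ s, f (R.pos s - R.pos u) = f (R.d x s) := by
    intro s
    unfold d at hu ⊢
    rw [map_sub] at hu ⊢
    rw [map_sub]; linarith
  have e1 : ∑ s, μ s * f (R.d x s) = 0 := by
    have : f (R.pos v - R.pos u) = 0 := by rw [key, hv]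
    rw [e, map_sum] at this
    rw [← this]
    exact Finset.sum_congr rfl fun s _ => by rw [map_smul, smul_eq_mul, key]
  have e2 : ∀ s, μ s * f (R.d x s) = 0 := by
    have := (Finset.sum_eq_zero_iff_of_nonneg (s := Finset.univ)
      (f := fun s => μ s * f (R.d x s)) (fun s _ => ?_)).mp e1
    · exact fun s => this s (Finset.mem_univ s)
    · exact mul_nonneg (hμ s) (hnn s)
  have e3 : ∀ s, s ≠ x → μ s = 0 := by
    intro s hsx
    by_contra hne
    have hnb : R.nb u s := by
      by_contra hc; exact hne (hs s hc)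
    have hf : f (R.d x s) = 0 := by
      rcases mul_eq_zero.mp (e2 s) with h' | h'
      · exact absurd h' hne
      · exact h'
    rcases hz s hf with h' | h' | h'
    · exact hsx h'
    · exact R.nb_ne hnb h'.symm
    · rw [h'] at hnb
      rcases R.nb_cmp hnb with h'' | h''
      · exact h.uv h''.le
      · exact h.vu h''.le
  have e4 : R.pos v - R.pos u = μ x • (R.pos x - R.pos u) := by
    rw [e, Finset.sum_eq_single x]
    · intro s _ hsx; rw [e3 s hsx, zero_smul]
    · intro h; exact absurd (Finset.mem_univ _) h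
  have e5 : R.d x v = (1 - μ x) • R.d x u := by
    unfold d
    have : R.pos v = R.pos u + μ x • (R.pos x - R.pos u) := by rw [← e4]; abel
    rw [this, sub_smul, one_smul, smul_sub, smul_sub]; abel
  rcases le_or_gt 0 (1 - μ x) with h1 | h1
  · have := (R.ray2 (a := u) nv (α := 1) (κ := 1 - μ x) (μ := fun _ => 0) zero_le_one h1
      (fun _ => le_refl _) (by rw [one_smul, e5]; simp)).2 h.xu.ne' h.ne_uv
    rw [this, zero_smul] at e5
    exact R.d_ne h.xv.ne e5
  · have := R.ext2 (x := x) (a := u) (b := u) (κ := -(1 - μ x)) (η := 0)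
      (μ := fun r => if r = v then 1 else 0) (by linarith) (le_refl _)
      (fun r => by split_ifs <;> norm_num)
      (by
        simp only [ite_smul, one_smul, zero_smul, Finset.sum_ite_eq', Finset.mem_univ, if_true]
        rw [e5, neg_smul]; simp) v h.xv.ne'
    simp at this

/-- the relation in the bent case -/
theorem rel1 [FiniteDimensional ℝ W] {x u v t : L} (h : UpSq x u v t) (ht : R.nb x t) :
    ∃ (γ : L → ℝ) (α β : ℝ), (∀ s, 0 ≤ γ s) ∧ (∀ s, γ s ≠ 0 → R.nb x s ∧ s ≠ u ∧ s ≠ v) ∧
      0 < γ t ∧ 0 < α ∧ 0 < β ∧ ∑ s, γ s • R.d x s = α • R.d x u + β • R.d x v := by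
  have nu : R.nb x u := R.nb_cov h.cov
  have nv : R.nb x v := R.nb_cov h.symm.cov
  rcases R.rel_or_f x u v with ⟨f, h1, h2, h3⟩ | ⟨γ, α, β, h1, h2, h3, e⟩
  · exfalso
    have hf := R.face_up (x := x) f (fun s hs => by
      by_cases e1 : s = u
      · rw [e1, h1]
      · by_cases e2 : s = v
        · rw [e2, h2]
        · exact (h3 s hs e1 e2).le) (fun s hs h0 => by
      by_cases e1 : s = u
      · rw [e1]; exact h.xu
      · by_cases e2 : s = v
        · rw [e2]; exact h.xv
        · exact absurd h0 (h3 s hs e1 e2).ne')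
    refine R.no_three h f hf.1 ?_ h1 h2
    intro y hy
    rcases h.mem y (hf.2 y hy) with e | e | e | e
    · exact Or.inl e
    · exact Or.inr (Or.inl e)
    · exact Or.inr (Or.inr e)
    · rw [e] at hy
      exact absurd hy (h3 t ht h.ut.ne' h.vt.ne').ne'
  · obtain ⟨hα, hβ⟩ := R.coef_pos nu nv h1 h2 h3 e
    refine ⟨γ, α, β, h1, h2, ?_, hα, hβ, e⟩
    by_contra hγ
    have hγ0 : γ t = 0 := le_antisymm (not_lt.mp hγ) (h1 t)
    have := R.sum_c_nonpos (x := x) h1 (fun s hs => by
      obtain ⟨n1, n2, n3⟩ := h2 s hs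
      rcases R.nb_cmp n1 with h' | h'
      · rcases h.mem s h'.le with e | e | e | e
        · exact e.le
        · exact absurd e n2
        · exact absurd e n3
        · rw [e] at hs; exact absurd hγ0 hs
      · exact h'.le)
    rw [e, map_add, map_smul, map_smul, smul_eq_mul, smul_eq_mul] at this
    have p1 := mul_pos hα (R.c_d_pos h.xu)
    have p2 := mul_pos hβ (R.c_d_pos h.xv)
    linarith

/-- the direct case: a face with vertex set the whole interval -/
theorem face_direct [FiniteDimensional ℝ W] {x u v t : L} (h : UpSq x u v t)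
    (ht : ¬ R.nb x t) :
    ∃ f : W →ₗ[ℝ] ℝ, (∀ y, 0 ≤ f (R.d x y)) ∧ ∀ y, f (R.d x y) = 0 ↔ x ≤ y := by
  have nu : R.nb x u := R.nb_cov h.cov
  have nv : R.nb x v := R.nb_cov h.symm.cov
  rcases R.rel_or_f x u v with ⟨f, h1, h2, h3⟩ | ⟨γ, α, β, h1, h2, h3, e⟩
  · have hf := R.face_up (x := x) f (fun s hs => by
      by_cases e1 : s = u
      · rw [e1, h1]
      · by_cases e2 : s = v
        · rw [e2, h2]
        · exact (h3 s hs e1 e2).le) (fun s hs h0 => by
      by_cases e1 : s = u
      · rw [e1]; exact h.xu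
      · by_cases e2 : s = v
        · rw [e2]; exact h.xv
        · exact absurd h0 (h3 s hs e1 e2).ne')
    refine ⟨f, hf.1, fun y => ⟨hf.2 y, ?_⟩⟩
    have hft : f (R.d x t) = 0 := by
      by_contra hne
      refine R.no_three h f hf.1 ?_ h1 h2
      intro y hy
      rcases h.mem y (hf.2 y hy) with e | e | e | e
      · exact Or.inl e
      · exact Or.inr (Or.inl e)
      · exact Or.inr (Or.inr e)
      · rw [e] at hy; exact absurd hy hne
    intro hy
    rcases h.mem y hy with e | e | e | e
    · rw [e, R.d_self, map_zero]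
    · rw [e, h1]
    · rw [e, h2]
    · rw [e, hft]
  · exfalso
    obtain ⟨hα, hβ⟩ := R.coef_pos nu nv h1 h2 h3 e
    have := R.sum_c_nonpos (x := x) h1 (fun s hs => by
      obtain ⟨n1, n2, n3⟩ := h2 s hs
      rcases R.nb_cmp n1 with h' | h'
      · rcases h.mem s h'.le with e | e | e | e
        · exact e.le
        · exact absurd e n2
        · exact absurd e n3
        · rw [e] at n1; exact absurd n1 ht
      · exact h'.le)
    rw [e, map_add, map_smul, map_smul, smul_eq_mul, smul_eq_mul] at this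
    have p1 := mul_pos hα (R.c_d_pos h.xu)
    have p2 := mul_pos hβ (R.c_d_pos h.xv)
    linarith

/-- the bent case: a face with vertex set `{x,u,t}` -/
theorem face_bent [FiniteDimensional ℝ W] {x u v t : L} (h : UpSq x u v t)
    (ht : R.nb x t) :
    ∃ f : W →ₗ[ℝ] ℝ, (∀ y, 0 ≤ f (R.d x y)) ∧ ∀ y, f (R.d x y) = 0 ↔ (y = x ∨ y = u ∨ y = t) := by
  classical
  have nu : R.nb x u := R.nb_cov h.cov
  have nv : R.nb x v := R.nb_cov h.symm.cov
  rcases R.rel_or_f x u t with ⟨f, h1, h2, h3⟩ | ⟨δ, α', ε, k1, k2, k3, ek⟩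
  · have hf := R.face_up (x := x) f (fun s hs => by
      by_cases e1 : s = u
      · rw [e1, h1]
      · by_cases e2 : s = t
        · rw [e2, h2]
        · exact (h3 s hs e1 e2).le) (fun s hs h0 => by
      by_cases e1 : s = u
      · rw [e1]; exact h.xu
      · by_cases e2 : s = t
        · rw [e2]; exact h.xt
        · exact absurd h0 (h3 s hs e1 e2).ne')
    refine ⟨f, hf.1, fun y => ⟨?_, ?_⟩⟩
    · intro hy
      rcases h.mem y (hf.2 y hy) with e | e | e | e
      · exact Or.inl e
      · exact Or.inr (Or.inl e)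
      · rw [e] at hy
        exact absurd hy (h3 v nv h.ne_uv.symm h.vt.ne).ne'
      · exact Or.inr (Or.inr e)
    · rintro (e | e | e)
      · rw [e, R.d_self, map_zero]
      · rw [e, h1]
      · rw [e, h2]
  · exfalso
    obtain ⟨γ, α, β, h1, h2, hγt, hα, hβ, e⟩ := R.rel1 h ht
    obtain ⟨hα', hε⟩ := R.coef_pos nu ht k1 k2 k3 ek
    -- coefficient function without `v` and `t`
    set μ : L → ℝ := fun s => if s = v ∨ s = t then 0 else γ t * δ s + ε * γ s with hμdef
    set κ : ℝ := γ t * δ v - ε * β with hκ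
    set ζ : ℝ := γ t * α' + ε * α with hζ
    have hζpos : 0 < ζ := add_pos (mul_pos hγt hα') (mul_pos hε hα)
    have hμ : ∀ s, 0 ≤ μ s := by
      intro s
      simp only [hμdef]
      split_ifs
      · exact le_refl _
      · exact add_nonneg (mul_nonneg hγt.le (k1 s)) (mul_nonneg hε.le (h1 s))
    have hγv : γ v = 0 := by
      by_contra hc; exact (h2 v hc).2.2 rfl
    have hδt : δ t = 0 := by
      by_contra hc; exact (k2 t hc).2.2 rfl
    have hsum : ∑ s, μ s • R.d x s + κ • R.d x v = ζ • R.d x u := by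
      have e1 : ∑ s, (γ t * δ s + ε * γ s) • R.d x s =
          γ t • (α' • R.d x u + ε • R.d x t) + ε • (α • R.d x u + β • R.d x v) := by
        rw [← ek, ← e, Finset.smul_sum, Finset.smul_sum, ← Finset.sum_add_distrib]
        exact Finset.sum_congr rfl fun s _ => by rw [add_smul, mul_smul, mul_smul]
      have e2 : ∑ s, (γ t * δ s + ε * γ s) • R.d x s = ∑ s, μ s • R.d x s +
          (γ t * δ v) • R.d x v + (ε * γ t) • R.d x t := by
        have : ∀ s, (γ t * δ s + ε * γ s) • R.d x s = μ s • R.d x s +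
            (if s = v then (γ t * δ v) • R.d x v else 0) +
            (if s = t then (ε * γ t) • R.d x t else 0) := by
          intro s
          by_cases a1 : s = v
          · have a2 : v ≠ t := h.vt.ne
            subst a1
            simp [hμdef, a2, hγv]
          · by_cases a2 : s = t
            · subst a2
              simp [hμdef, a1, hδt]
            · simp [hμdef, a1, a2]
        rw [Finset.sum_congr rfl fun s _ => this s, Finset.sum_add_distrib,
          Finset.sum_add_distrib]
        simp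
      rw [e2] at e1
      have e3 : ∑ s, μ s • R.d x s = γ t • (α' • R.d x u + ε • R.d x t) +
          ε • (α • R.d x u + β • R.d x v) - (γ t * δ v) • R.d x v - (ε * γ t) • R.d x t := by
        rw [← e1]; abel
      rw [e3]
      simp only [hκ, hζ]
      module
    rcases le_or_gt 0 κ with hk | hk
    · have r := R.ray2 (a := v) nu (α := ζ) (κ := κ) hζpos.le hk hμ hsum.symm
      have hμ0 : ∀ s, s ≠ x → s ≠ u → μ s = 0 := r.1
      have hκ0 := r.2 h.xv.ne' h.ne_uv.symm
      have hμu : μ u = 0 := by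
        have a1 : δ u = 0 := by
          by_contra hc; exact (k2 u hc).2.1 rfl
        have a2 : γ u = 0 := by
          by_contra hc; exact (h2 u hc).2.1 rfl
        simp [hμdef, a1, a2]
      have : ζ • R.d x u = 0 := by
        rw [← hsum, hκ0, zero_smul, add_zero]
        refine Finset.sum_eq_zero fun s _ => ?_
        by_cases a1 : s = x
        · rw [a1, R.d_self, smul_zero]
        · by_cases a2 : s = u
          · rw [a2, hμu, zero_smul]
          · rw [hμ0 s a1 a2, zero_smul]
      rcases smul_eq_zero.mp this with h' | h'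
      · exact hζpos.ne' h'
      · exact R.d_ne h.xu.ne h'
    · have h3 := R.sum_c_nonpos (x := x) hμ (fun s hs => by
        have hs1 : ¬ (s = v ∨ s = t) := by
          intro hc; simp [hμdef, hc] at hs
        have hs2 : γ t * δ s + ε * γ s ≠ 0 := by
          intro hc; simp [hμdef, hc] at hs
        have hnb : R.nb x s ∧ s ≠ u := by
          by_cases a1 : δ s = 0
          · by_cases a2 : γ s = 0
            · simp [a1, a2] at hs2
            · exact ⟨(h2 s a2).1, (h2 s a2).2.1⟩
          · exact ⟨(k2 s a1).1, (k2 s a1).2.1⟩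
        rcases R.nb_cmp hnb.1 with h' | h'
        · rcases h.mem s h'.le with e | e | e | e
          · exact e.le
          · exact absurd e hnb.2
          · exact absurd (Or.inl e) hs1
          · exact absurd (Or.inr e) hs1
        · exact h'.le)
      have h4 : R.c (∑ s, μ s • R.d x s) + κ * R.c (R.d x v) = ζ * R.c (R.d x u) := by
        rw [← smul_eq_mul κ, ← smul_eq_mul ζ, ← map_smul, ← map_smul, ← map_add, hsum]
      have p1 := mul_pos hζpos (R.c_d_pos h.xu)
      have p2 := mul_neg_of_neg_of_pos hk (R.c_d_pos h.xv)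
      linarith

end Rlz

end Pool.Agent.helper13.Orn
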