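import Mathlib
import Pool.Agent.helper13.Orn.Rlz

/-!
# Dimension at most four
-/

namespace Pool.Agent.helper13.Orn

open OrderDual

namespace Rlz

variable {L W : Type*} [PartialOrder L] [Fintype L] [AddCommGroup W] [Module ℝ W]
variable (R : Rlz L W)

theorem sum_split [DecidableEq L] {t b : L} (htb : t ≠ b) (g : L → W) :
    ∑ s, g s = ∑ s, (if s = t ∨ s = b then 0 else g s) + g t + g b := by
  have : ∀ s, g s = (if s = t ∨ s = b then 0 else g s) + (if s = t then g t else 0) +
      (if s = b then g b else 0) := by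
    intro s
    by_cases h1 : s = t
    · subst h1; simp [htb]
    · by_cases h2 : s = b
      · subst h2; simp [h1]
      · simp [h1, h2]
  rw [Finset.sum_congr rfl fun s _ => this s, Finset.sum_add_distrib, Finset.sum_add_distrib]
  simp

theorem dim_le [FiniteDimensional ℝ W] {E u v t p q b : L} (hU : UpSq E u v t)
    (hD : UpSq (toDual E) (toDual p) (toDual q) (toDual b)) (y : L) :
    R.d E y ∈ Submodule.span ℝ {R.d E p, R.d E q, R.d E u, R.d E v} := by
  classical
  set S := Submodule.span ℝ {R.d E p, R.d E q, R.d E u, R.d E v} with hS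
  have hp : R.d E p ∈ S := Submodule.subset_span (by simp)
  have hq : R.d E q ∈ S := Submodule.subset_span (by simp)
  have hu : R.d E u ∈ S := Submodule.subset_span (by simp)
  have hv : R.d E v ∈ S := Submodule.subset_span (by simp)
  have lpE : p < E := hD.xu
  have lqE : q < E := hD.xv
  have lbE : b < E := hD.xt
  have htb : t ≠ b := (lbE.trans hU.xt).ne'
  have above : ∀ s, E < s → s = u ∨ s = v ∨ s = t := by
    intro s hs
    rcases hU.mem s hs.le with e | e
    · exact absurd e hs.ne'
    · exact e
  have below : ∀ s, s < E → s = p ∨ s = q ∨ s = b := by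
    intro s hs
    have : toDual E < toDual s := hs
    rcases hD.mem (toDual s) this.le with e | e | e | e
    · exact absurd e this.ne'
    · exact Or.inl e
    · exact Or.inr (Or.inl e)
    · exact Or.inr (Or.inr e)
  have mem_of_nb : ∀ s, R.nb E s → s ≠ t → s ≠ b → R.d E s ∈ S := by
    intro s hs h1 h2
    rcases R.nb_cmp hs with h | h
    · rcases above s h with e | e | e
      · rw [e]; exact hu
      · rw [e]; exact hv
      · exact absurd e h1
    · rcases below s h with e | e | e
      · rw [e]; exact hp
      · rw [e]; exact hq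
      · exact absurd e h2
  have red : ∀ μ : L → ℝ, (∀ s, μ s ≠ 0 → R.nb E s) → ∑ s, μ s • R.d E s ∈ S →
      μ t • R.d E t + μ b • R.d E b ∈ S := by
    intro μ h1 h2
    rw [sum_split htb, add_assoc] at h2
    refine (Submodule.add_mem_iff_right S ?_).mp h2
    refine Submodule.sum_mem _ fun s _ => ?_
    split_ifs with hc
    · exact S.zero_mem
    · rw [not_or] at hc
      by_cases h0 : μ s = 0
      · rw [h0, zero_smul]; exact S.zero_mem
      · exact S.smul_mem _ (mem_of_nb s (h1 s h0) hc.1 hc.2)
  -- the relations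
  have relT : R.nb E t → ∃ γ : L → ℝ, 0 < γ t ∧ 0 ≤ γ b ∧ (∀ s, γ s ≠ 0 → R.nb E s) ∧
      γ t • R.d E t + γ b • R.d E b ∈ S ∧ 0 < γ t * R.c (R.d E t) + γ b * R.c (R.d E b) := by
    intro hnt
    obtain ⟨γ, α, β, h1, h2, hγt, hα, hβ, e⟩ := R.rel1 hU hnt
    refine ⟨γ, hγt, h1 b, fun s hs => (h2 s hs).1, ?_, ?_⟩
    · refine red γ (fun s hs => (h2 s hs).1) ?_
      rw [e]
      exact S.add_mem (S.smul_mem _ hu) (S.smul_mem _ hv)
    · have e2 : R.c (∑ s, γ s • R.d E s) = α * R.c (R.d E u) + β * R.c (R.d E v) := by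
        rw [e, map_add, map_smul, map_smul, smul_eq_mul, smul_eq_mul]
      rw [sum_split htb, map_add, map_add, map_smul, map_smul, smul_eq_mul, smul_eq_mul,
        map_sum] at e2
      have e3 : ∑ s, R.c (if s = t ∨ s = b then 0 else γ s • R.d E s) ≤ 0 := by
        refine Finset.sum_nonpos fun s _ => ?_
        split_ifs with hc
        · rw [map_zero]
        · rw [not_or] at hc
          rw [map_smul, smul_eq_mul]
          by_cases h0 : γ s = 0
          · rw [h0, zero_mul]
          · obtain ⟨n1, n2, n3⟩ := h2 s h0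
            rcases R.nb_cmp n1 with h | h
            · rcases above s h with e | e | e
              · exact absurd e n2
              · exact absurd e n3
              · exact absurd e hc.1
            · exact mul_nonpos_of_nonneg_of_nonpos (h1 s) (R.c_d_neg h).le
      have p1 := mul_pos hα (R.c_d_pos hU.xu)
      have p2 := mul_pos hβ (R.c_d_pos hU.xv)
      linarith
  have relB : R.nb E b → ∃ δ : L → ℝ, 0 < δ b ∧ 0 ≤ δ t ∧ (∀ s, δ s ≠ 0 → R.nb E s) ∧
      δ t • R.d E t + δ b • R.d E b ∈ S ∧ δ t * R.c (R.d E t) + δ b * R.c (R.d E b) < 0 := by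
    intro hnb
    obtain ⟨γ, α, β, h1, h2, hγt, hα, hβ, e⟩ := R.dual.rel1 hD hnb
    replace e : ∑ s : L, γ (toDual s) • R.d E s = α • R.d E p + β • R.d E q := e
    replace h1 : ∀ s : L, 0 ≤ γ (toDual s) := h1
    replace h2 : ∀ s : L, γ (toDual s) ≠ 0 → R.nb E s ∧ s ≠ p ∧ s ≠ q := h2
    refine ⟨fun s => γ (toDual s), hγt, h1 t, fun s hs => (h2 s hs).1, ?_, ?_⟩
    · refine red (fun s => γ (toDual s)) (fun s hs => (h2 s hs).1) ?_
      rw [e]
      exact S.add_mem (S.smul_mem _ hp) (S.smul_mem _ hq)
    · have e2 : R.c (∑ s, γ (toDual s) • R.d E s) = α * R.c (R.d E p) + β * R.c (R.d E q) := by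
        rw [e, map_add, map_smul, map_smul, smul_eq_mul, smul_eq_mul]
      rw [sum_split htb, map_add, map_add, map_smul, map_smul, smul_eq_mul, smul_eq_mul,
        map_sum] at e2
      have e3 : 0 ≤ ∑ s, R.c (if s = t ∨ s = b then 0 else γ (toDual s) • R.d E s) := by
        refine Finset.sum_nonneg fun s _ => ?_
        split_ifs with hc
        · rw [map_zero]
        · rw [not_or] at hc
          rw [map_smul, smul_eq_mul]
          by_cases h0 : γ (toDual s) = 0
          · rw [h0, zero_mul]
          · obtain ⟨n1, n2, n3⟩ := h2 s h0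
            rcases R.nb_cmp n1 with h | h
            · exact mul_nonneg (h1 s) (R.c_d_pos h).le
            · rcases below s h with e | e | e
              · exact absurd e n2
              · exact absurd e n3
              · exact absurd e hc.2
      have p1 := mul_neg_of_pos_of_neg hα (R.c_d_neg lpE)
      have p2 := mul_neg_of_pos_of_neg hβ (R.c_d_neg lqE)
      linarith
  have both : (R.nb E t → R.d E t ∈ S) ∧ (R.nb E b → R.d E b ∈ S) := by
    by_cases ht : R.nb E t
    · obtain ⟨γ, g1, g2, g3, g4, g5⟩ := relT ht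
      by_cases hb : R.nb E b
      · obtain ⟨δ, k1, k2, k3, k4, k5⟩ := relB hb
        have hdet : δ b * γ t - γ b * δ t ≠ 0 := by
          intro h0
          -- contradiction of signs
          have a1 := mul_pos k1 g5
          have a2 : γ b * (δ t * R.c (R.d E t) + δ b * R.c (R.d E b)) ≤ 0 :=
            mul_nonpos_of_nonneg_of_nonpos g2 k5.le
          have a3 : δ b * (γ t * R.c (R.d E t) + γ b * R.c (R.d E b)) =
              γ b * (δ t * R.c (R.d E t) + δ b * R.c (R.d E b)) := by
            linear_combination R.c (R.d E t) * h0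
          linarith
        have m1 : (δ b * γ t - γ b * δ t) • R.d E t ∈ S := by
          have := S.sub_mem (S.smul_mem (δ b) g4) (S.smul_mem (γ b) k4)
          have e : δ b • (γ t • R.d E t + γ b • R.d E b) - γ b • (δ t • R.d E t + δ b • R.d E b) =
            (δ b * γ t - γ b * δ t) • R.d E t := by module
          rwa [e] at this
        have m2 : (δ b * γ t - γ b * δ t) • R.d E b ∈ S := by
          have := S.sub_mem (S.smul_mem (γ t) k4) (S.smul_mem (δ t) g4)
          have e : γ t • (δ t • R.d E t + δ b • R.d E b) - δ t • (γ t • R.d E t + γ b • R.d E b) =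
            (δ b * γ t - γ b * δ t) • R.d E b := by module
          rwa [e] at this
        exact ⟨fun _ => (S.smul_mem_iff hdet).mp m1, fun _ => (S.smul_mem_iff hdet).mp m2⟩
      · refine ⟨fun _ => ?_, fun h => absurd h hb⟩
        have hγb : γ b = 0 := by
          by_contra hc; exact hb (g3 b hc)
        rw [hγb, zero_smul, add_zero] at g4
        exact (S.smul_mem_iff g1.ne').mp g4
    · refine ⟨fun h => absurd h ht, fun hb => ?_⟩
      obtain ⟨δ, k1, k2, k3, k4, k5⟩ := relB hb
      have hδt : δ t = 0 := by
        by_contra hc; exact ht (k3 t hc)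
      rw [hδt, zero_smul, zero_add] at k4
      exact (S.smul_mem_iff k1.ne').mp k4
  have all : ∀ s, R.nb E s → R.d E s ∈ S := by
    intro s hs
    by_cases h1 : s = t
    · rw [h1] at hs ⊢; exact both.1 hs
    · by_cases h2 : s = b
      · rw [h2] at hs ⊢; exact both.2 hs
      · exact mem_of_nb s hs h1 h2
  obtain ⟨μ, hμ, hs, e⟩ := R.gen E y
  have : R.d E y = ∑ s, μ s • R.d E s := e
  rw [this]
  refine Submodule.sum_mem _ fun s _ => ?_
  by_cases h : R.nb E s
  · exact S.smul_mem _ (all s h)
  · rw [hs s h, zero_smul]; exact S.zero_mem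

end Rlz

end Pool.Agent.helper13.Orn
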