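import Mathlib

/-!
# Parity of crossings of `K_{3,3}` drawn by cones in `ℝ³`
-/

namespace Pool.Agent.helper13.Orn

abbrev V3 := Fin 3 → ℝ

/-- the `3 × 3` determinant -/
def D (a b c : V3) : ℝ :=
  a 0 * (b 1 * c 2 - b 2 * c 1) - a 1 * (b 0 * c 2 - b 2 * c 0) + a 2 * (b 0 * c 1 - b 1 * c 0)

/-- sign -/
noncomputable def sg (r : ℝ) : Bool := decide (0 < r)

theorem sg_neg {r : ℝ} (h : r ≠ 0) : sg (-r) = !(sg r) := by
  unfold sg
  rcases lt_or_gt_of_ne h with h | h
  · have h1 : ¬ (0 < r) := not_lt.mpr h.le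
    simp [h, h1]
  · have h1 : ¬ (r < 0) := not_lt.mpr h.le
    simp [h, h1]

theorem sg_mul {r s : ℝ} (hr : r ≠ 0) (hs : s ≠ 0) : sg (r * s) = (sg r == sg s) := by
  unfold sg
  rcases lt_or_gt_of_ne hr with h | h <;> rcases lt_or_gt_of_ne hs with h' | h'
  · have h1 : ¬ (0 < r) := not_lt.mpr h.le
    have h2 : ¬ (0 < s) := not_lt.mpr h'.le
    simp [mul_pos_of_neg_of_neg h h', h1, h2]
  · have h1 : ¬ (0 < r) := not_lt.mpr h.le
    have : ¬ (0 < r * s) := not_lt.mpr (mul_neg_of_neg_of_pos h h').le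
    simp [this, h1, h']
  · have h2 : ¬ (0 < s) := not_lt.mpr h'.le
    have : ¬ (0 < r * s) := not_lt.mpr (mul_neg_of_pos_of_neg h h').le
    simp [this, h2, h]
  · simp [mul_pos h h', h, h']

/-- three nonzero numbers with sum zero do not all have the same sign -/
theorem sg_three {p q r : ℝ} (hp : p ≠ 0) (h : p + q + r = 0) :
    ¬ (sg p = sg q ∧ sg q = sg r) := by
  unfold sg
  rintro ⟨h1, h2⟩
  rcases lt_or_gt_of_ne hp with h' | h'
  · have e1 : ¬ (0 < p) := not_lt.mpr h'.le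
    simp only [e1, decide_false] at h1
    have e2 : ¬ (0 < q) := by simpa using h1.symm
    simp only [e2, decide_false] at h2
    have e3 : ¬ (0 < r) := by simpa using h2.symm
    linarith [not_lt.mp e2, not_lt.mp e3]
  · have e1 : (0 < p) := h'
    simp only [e1, decide_true] at h1
    have e2 : (0 < q) := by simpa using h1.symm
    simp only [e2, decide_true] at h2
    have e3 : (0 < r) := by simpa using h2.symm
    linarith

theorem sg_gp {p q r s t u : ℝ} (hp : p ≠ 0) (hq : q ≠ 0) (hr : r ≠ 0) (hs : s ≠ 0)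
    (ht : t ≠ 0) (hu : u ≠ 0) (h : p * q - r * s + t * u = 0) :
    ¬ ((sg p == sg q) = !(sg r == sg s) ∧ (!(sg r == sg s)) = (sg t == sg u)) := by
  have h1 := sg_three (p := p * q) (q := - (r * s)) (r := t * u) (mul_ne_zero hp hq)
    (by linarith)
  rw [sg_neg (mul_ne_zero hr hs), sg_mul hp hq, sg_mul hr hs, sg_mul ht hu] at h1
  exact h1

/-- crossing of the segments (cones) `a b` and `d e` -/
noncomputable def X (a b d e : V3) : Bool :=
  (sg (D b d e) == !(sg (D a d e))) && (sg (D b d e) == !(sg (D a b e))) &&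
    (sg (D b d e) == sg (D a b d))

/-- `d` inside the cone over `a b c` -/
noncomputable def T (d a b c : V3) : Bool :=
  (sg (D d b c) == sg (D a b c)) && (sg (D a d c) == sg (D a b c)) &&
    (sg (D a b d) == sg (D a b c))

def bz (b : Bool) : ZMod 2 := if b then 1 else 0

/-- general position of five vectors -/
structure GP5 (a b c d e : V3) : Prop where
  abc : D a b c ≠ 0
  abd : D a b d ≠ 0
  abe : D a b e ≠ 0
  acd : D a c d ≠ 0
  ace : D a c e ≠ 0
  ade : D a d e ≠ 0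
  bcd : D b c d ≠ 0
  bce : D b c e ≠ 0
  bde : D b d e ≠ 0
  cde : D c d e ≠ 0

theorem bool_tri : ∀ abc abd abe acd ace ade bcd bce bde cde : Bool,
    ¬ ((abc == ade) = !(abd == ace) ∧ (!(abd == ace)) = (abe == acd)) →
    ¬ (((!abc) == bde) = !((!abd) == bce) ∧ (!((!abd) == bce)) = ((!abe) == bcd)) →
    ¬ ((abc == cde) = !((!acd) == (!bce)) ∧ (!((!acd) == (!bce))) = ((!ace) == (!bcd))) →
    ¬ ((abd == (!cde)) = !(acd == (!bde)) ∧ (!(acd == (!bde))) = ((!ade) == bcd)) →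
    ¬ ((abe == cde) = !(ace == bde) ∧ (!(ace == bde)) = (ade == bce)) →
    bz ((bde == !ade) && (bde == !abe) && (bde == abd)) +
    bz ((cde == !bde) && (cde == !bce) && (cde == bcd)) +
    bz ((ade == !cde) && (ade == !(!ace)) && (ade == !acd)) =
    bz ((bcd == abc) && ((!acd) == abc) && (abd == abc)) +
    bz ((bce == abc) && ((!ace) == abc) && (abe == abc)) := by
  decide

theorem D_swap12 (a b c : V3) : D b a c = - D a b c := by unfold D; ring
theorem D_swap23 (a b c : V3) : D a c b = - D a b c := by unfold D; ring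
theorem D_cyc (a b c : V3) : D b c a = D a b c := by unfold D; ring
theorem D_swap13 (a b c : V3) : D c b a = - D a b c := by unfold D; ring
theorem D_cyc' (a b c : V3) : D c a b = D a b c := by unfold D; ring

theorem tri {a b c d e : V3} (h : GP5 a b c d e) :
    bz (X a b d e) + bz (X b c d e) + bz (X c a d e) = bz (T d a b c) + bz (T e a b c) := by
  have g1 := sg_gp h.abc h.ade h.abd h.ace h.abe h.acd (by unfold D; ring)
  have hbac : D b a c ≠ 0 := by rw [D_swap12]; exact neg_ne_zero.mpr h.abc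
  have hbad : D b a d ≠ 0 := by rw [D_swap12]; exact neg_ne_zero.mpr h.abd
  have hbae : D b a e ≠ 0 := by rw [D_swap12]; exact neg_ne_zero.mpr h.abe
  have g2 := sg_gp hbac h.bde hbad h.bce hbae h.bcd (by unfold D; ring)
  have g3 := sg_gp (p := D a b c) (q := D c d e) (r := D c a d) (s := D c b e) (t := D c a e)
    (u := D c b d) h.abc h.cde
    (by rw [D_swap12]; exact neg_ne_zero.mpr h.acd) (by rw [D_swap12]; exact neg_ne_zero.mpr h.bce)
    (by rw [D_swap12]; exact neg_ne_zero.mpr h.ace) (by rw [D_swap12]; exact neg_ne_zero.mpr h.bcd)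
    (by unfold D; ring)
  have g4 := sg_gp (p := D a b d) (q := D d c e) (r := D a c d) (s := D d b e) (t := D d a e)
    (u := D b c d) h.abd (by rw [D_swap12]; exact neg_ne_zero.mpr h.cde) h.acd
    (by rw [D_swap12]; exact neg_ne_zero.mpr h.bde)
    (by rw [D_swap12]; exact neg_ne_zero.mpr h.ade) h.bcd (by unfold D; ring)
  have g5 := sg_gp (p := D a b e) (q := D c d e) (r := D a c e) (s := D b d e) (t := D a d e)
    (u := D b c e) h.abe h.cde h.ace h.bde h.ade h.bce (by unfold D; ring)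
  rw [D_swap12 a b c, D_swap12 a b d, D_swap12 a b e, sg_neg h.abc, sg_neg h.abd, sg_neg h.abe]
    at g2
  rw [D_swap12 a c d, D_swap12 a c e, D_swap12 b c e, D_swap12 b c d, sg_neg h.acd, sg_neg h.ace,
    sg_neg h.bce, sg_neg h.bcd] at g3
  rw [D_swap12 c d e, D_swap12 b d e, D_swap12 a d e, sg_neg h.cde, sg_neg h.bde, sg_neg h.ade]
    at g4
  have := bool_tri _ _ _ _ _ _ _ _ _ _ g1 g2 g3 g4 g5
  unfold X T
  rw [D_swap12 a c e, D_swap12 a c d, sg_neg h.ace, sg_neg h.acd, ← D_cyc d b c, D_swap23 a c d,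
    sg_neg h.acd, ← D_cyc e b c, D_swap23 a c e, sg_neg h.ace]
  exact this


theorem D_neg3 (a b c : V3) : D a b (-c) = - D a b c := by unfold D; simp only [Pi.neg_apply]; ring
theorem D_neg1 (a b c : V3) : D (-a) b c = - D a b c := by unfold D; simp only [Pi.neg_apply]; ring
theorem D_neg2 (a b c : V3) : D a (-b) c = - D a b c := by unfold D; simp only [Pi.neg_apply]; ring

theorem T_neg {a b c d : V3} (h1 : D a b c ≠ 0) (h2 : D d b c ≠ 0) (h3 : D a d c ≠ 0) :
    T d a b (-c) = X a b d c := by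
  unfold T X
  rw [D_neg3, D_neg3, D_neg3, sg_neg h1, sg_neg h2, sg_neg h3, D_swap12 d b c, sg_neg h2]
  generalize sg (D a b c) = p
  generalize sg (D d b c) = q
  generalize sg (D a d c) = r
  generalize sg (D a b d) = s
  revert p q r s
  decide

theorem X_flip {a c d e : V3} (h3 : D c a e ≠ 0) (h4 : D c a d ≠ 0) :
    X c a d e = X d e a c := by
  have e1 : D e a c = - D c a e := by unfold D; ring
  have e2 : D d a c = - D c a d := by unfold D; ring
  have e3 : D d e c = D c d e := by unfold D; ring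
  have e4 : D d e a = D a d e := by unfold D; ring
  unfold X
  rw [e1, e2, e3, e4, sg_neg h3, sg_neg h4]
  generalize sg (D a d e) = p
  generalize sg (D c d e) = q
  generalize sg (D c a e) = r
  generalize sg (D c a d) = s
  revert p q r s
  decide

theorem X_pair {a b c d : V3} (h1 : D a b c ≠ 0) (h2 : D b d c ≠ 0) (h3 : D a d c ≠ 0) :
    bz (X a b d c) + bz (X a b d (-c)) =
      bz ((sg (D b d c) == !(sg (D a d c))) && (sg (D b d c) == !(sg (D a b c)))) := by
  unfold X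
  rw [D_neg3, D_neg3, D_neg3, sg_neg h1, sg_neg h2, sg_neg h3]
  generalize sg (D a b c) = p
  generalize sg (D b d c) = q
  generalize sg (D a d c) = r
  generalize sg (D a b d) = s
  revert p q r s
  decide

/-- general position for the `K_{3,3}` configuration -/
structure GPK (u w : Fin 3 → V3) : Prop where
  uuu : D (u 0) (u 1) (u 2) ≠ 0
  www : D (w 0) (w 1) (w 2) ≠ 0
  uuw : ∀ i k j, i ≠ k → D (u i) (u k) (w j) ≠ 0
  uww : ∀ i j l, j ≠ l → D (u i) (w j) (w l) ≠ 0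

theorem step {u w : Fin 3 → V3} (h : GPK u w) {i k : Fin 3} (hik : i ≠ k) :
    bz (X (u i) (w 0) (u k) (w 1)) + bz (X (u i) (w 2) (u k) (w 1)) +
      bz (X (u i) (w 2) (u k) (w 0)) =
    bz (X (u i) (w 0) (u k) (w 1)) + bz (X (w 2) (- w 1) (u k) (w 0)) +
      bz (X (u k) (w 0) (u i) (- w 1)) + bz (T (w 0) (u i) (w 2) (- w 1)) := by
  have gp : GP5 (u i) (w 2) (- w 1) (u k) (w 0) := by
    constructor
    · rw [D_neg3]; exact neg_ne_zero.mpr (h.uww _ _ _ (by decide))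
    · rw [D_swap23]; exact neg_ne_zero.mpr (h.uuw _ _ _ hik)
    · exact h.uww _ _ _ (by decide)
    · rw [D_neg2, D_swap23, neg_neg]; exact h.uuw _ _ _ hik
    · rw [D_neg2]; exact neg_ne_zero.mpr (h.uww _ _ _ (by decide))
    · exact h.uuw _ _ _ hik
    · rw [D_neg2, D_cyc]; exact neg_ne_zero.mpr (h.uww _ _ _ (by decide))
    · rw [D_neg2]
      have : D (w 2) (w 1) (w 0) = - D (w 0) (w 1) (w 2) := by unfold D; ring
      rw [this, neg_neg]; exact h.www
    · rw [D_swap12]; exact neg_ne_zero.mpr (h.uww _ _ _ (by decide))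
    · rw [D_neg1, D_swap12, neg_neg]; exact h.uww _ _ _ (by decide)
  have t := tri gp
  have t2 : T (u k) (u i) (w 2) (- w 1) = X (u i) (w 2) (u k) (w 1) :=
    T_neg (h.uww _ _ _ (by decide)) (h.uww _ _ _ (by decide)) (h.uuw _ _ _ hik)
  have t3 : X (- w 1) (u i) (u k) (w 0) = X (u k) (w 0) (u i) (- w 1) := by
    apply X_flip
    · rw [D_neg1, D_swap12, neg_neg]; exact h.uww _ _ _ (by decide)
    · rw [D_neg1, D_cyc']; exact neg_ne_zero.mpr (h.uuw _ _ _ hik)
  rw [t2, t3] at t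
  have two : (2 : ZMod 2) = 0 := by decide
  linear_combination t + (bz (X (u i) (w 2) (u k) (w 1)) - bz (X (w 2) (- w 1) (u k) (w 0)) -
    bz (X (u k) (w 0) (u i) (- w 1))) * two

theorem bool_pairs : ∀ s0 s1 s2 n01 n02 n12 : Bool,
    bz (((!s1) == !n01) && ((!s1) == !s0)) + bz (((!s2) == !n02) && ((!s2) == !s0)) +
    bz (((!s0) == !(!n01)) && ((!s0) == !s1)) + bz (((!s2) == !n12) && ((!s2) == !s1)) +
    bz (((!s0) == !(!n02)) && ((!s0) == !s2)) + bz (((!s1) == !(!n12)) && ((!s1) == !s2)) = 1 := by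
  decide

/-- the sum over ordered pairs of the three crossing numbers -/
theorem straight {u w : Fin 3 → V3} (h : GPK u w) (P : Fin 3 → Fin 3 → ZMod 2)
    (hP : ∀ i k, P i k = bz (X (u i) (w 0) (u k) (w 1)) + bz (X (u i) (w 2) (u k) (w 1)) +
      bz (X (u i) (w 2) (u k) (w 0))) :
    P 0 1 + P 0 2 + P 1 0 + P 1 2 + P 2 0 + P 2 1 = 1 := by
  have two : (2 : ZMod 2) = 0 := by decide
  have pr : ∀ i k : Fin 3, i ≠ k → bz (X (u i) (w 0) (u k) (w 1)) + bz (X (u i) (w 0) (u k) (- w 1))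
      = bz (((!(sg (D (u k) (w 0) (w 1)))) == !(sg (D (u i) (u k) (w 1)))) &&
        ((!(sg (D (u k) (w 0) (w 1)))) == !(sg (D (u i) (w 0) (w 1))))) := by
    intro i k hik
    rw [X_pair (h.uww _ _ _ (by decide))
      (by rw [D_swap12]; exact neg_ne_zero.mpr (h.uww _ _ _ (by decide))) (h.uuw _ _ _ hik),
      D_swap12 (u k) (w 0), sg_neg (h.uww _ _ _ (by decide))]
  have st : ∀ i k : Fin 3, i ≠ k → P i k = bz (X (u i) (w 0) (u k) (w 1)) +
      bz (X (w 2) (- w 1) (u k) (w 0)) +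
      bz (X (u k) (w 0) (u i) (- w 1)) + bz (T (w 0) (u i) (w 2) (- w 1)) := by
    intro i k hik
    rw [hP, step h hik]
  have bp := bool_pairs (sg (D (u 0) (w 0) (w 1))) (sg (D (u 1) (w 0) (w 1)))
    (sg (D (u 2) (w 0) (w 1))) (sg (D (u 0) (u 1) (w 1))) (sg (D (u 0) (u 2) (w 1)))
    (sg (D (u 1) (u 2) (w 1)))
  have p10 := pr 1 0 (by decide)
  have p20 := pr 2 0 (by decide)
  have p21 := pr 2 1 (by decide)
  rw [D_swap12 (u 0) (u 1), sg_neg (h.uuw 0 1 1 (by decide))] at p10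
  rw [D_swap12 (u 0) (u 2), sg_neg (h.uuw 0 2 1 (by decide))] at p20
  rw [D_swap12 (u 1) (u 2), sg_neg (h.uuw 1 2 1 (by decide))] at p21
  rw [← pr 0 1 (by decide), ← pr 0 2 (by decide), ← p10, ← pr 1 2 (by decide),
    ← p20, ← p21] at bp
  rw [st 0 1 (by decide), st 0 2 (by decide), st 1 0 (by decide), st 1 2 (by decide),
    st 2 0 (by decide), st 2 1 (by decide)]
  linear_combination bp + (bz (X (w 2) (- w 1) (u 0) (w 0)) + bz (X (w 2) (- w 1) (u 1) (w 0)) +
    bz (X (w 2) (- w 1) (u 2) (w 0)) + bz (T (w 0) (u 0) (w 2) (- w 1)) +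
    bz (T (w 0) (u 1) (w 2) (- w 1)) + bz (T (w 0) (u 2) (w 2) (- w 1))) * two

theorem X_comm (a b d e : V3) :
    X d e a b = X a b d e := by
  have e1 : D e a b = D a b e := by unfold D; ring
  have e2 : D d a b = D a b d := by unfold D; ring
  have e3 : D d e b = D b d e := by unfold D; ring
  have e4 : D d e a = D a d e := by unfold D; ring
  unfold X
  rw [e1, e2, e3, e4]
  generalize sg (D a b d) = p
  generalize sg (D a b e) = q
  generalize sg (D a d e) = r
  generalize sg (D b d e) = s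
  revert p q r s
  decide

theorem X_swap {a b d e : V3} (h1 : D a b d ≠ 0) (h2 : D a b e ≠ 0) :
    X b a d e = X a b d e := by
  unfold X
  rw [D_swap12 a b e, D_swap12 a b d, sg_neg h1, sg_neg h2]
  generalize sg (D a b d) = p
  generalize sg (D a b e) = q
  generalize sg (D a d e) = r
  generalize sg (D b d e) = s
  revert p q r s
  decide

/-- A drawing of `K_{3,3}`. -/
theorem no_K33 {ι : Type*} (vec : ι → V3) (N : ι → Prop) (lk : ι → ι → Prop)
    (gp : ∀ a b c, N a → N b → N c → a ≠ b → a ≠ c → b ≠ c → D (vec a) (vec b) (vec c) ≠ 0)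
    (nc : ∀ a b d e, lk a b → lk d e → a ≠ d → a ≠ e → b ≠ d → b ≠ e →
      X (vec a) (vec b) (vec d) (vec e) = false)
    (u w : Fin 3 → ι) (x : Fin 3 → Fin 3 → ι)
    (hu : ∀ i, N (u i)) (hw : ∀ i, N (w i))
    (hlk : ∀ i j, lk (u i) (w j) ∨ (N (x i j) ∧ lk (u i) (x i j) ∧ lk (x i j) (w j)))
    (duu : ∀ i k, i ≠ k → u i ≠ u k) (dww : ∀ i k, i ≠ k → w i ≠ w k) (duw : ∀ i j, u i ≠ w j)
    (dxu : ∀ i j k, x i j ≠ u k) (dxw : ∀ i j k, x i j ≠ w k)
    (dxx : ∀ i j k l, i ≠ k → x i j ≠ x k l) : False := by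
  classical
  have two : (2 : ZMod 2) = 0 := by decide
  -- the key property of every path
  have key : ∀ i j, ∃ t : ι → ZMod 2, (∀ d e, N d → N e → d ≠ e → lk d e →
      d ≠ u i → e ≠ u i → d ≠ w j → e ≠ w j → d ≠ x i j → e ≠ x i j →
      bz (X (vec (u i)) (vec (w j)) (vec d) (vec e)) = t d + t e) ∧
      (lk (u i) (w j) ∧ (∀ z, t z = 0) ∨
        (N (x i j) ∧ lk (u i) (x i j) ∧ lk (x i j) (w j)) ∧
        ∀ z, t z = bz (T (vec z) (vec (u i)) (vec (x i j)) (vec (w j)))) := by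
    intro i j
    rcases hlk i j with h | ⟨h1, h2, h3⟩
    · refine ⟨fun _ => 0, ?_, Or.inl ⟨h, fun _ => rfl⟩⟩
      intro d e _ _ _ hlk' d1 d2 d3 d4 _ _
      rw [nc _ _ _ _ h hlk' d1.symm d2.symm d3.symm d4.symm]
      rfl
    · refine ⟨fun z => bz (T (vec z) (vec (u i)) (vec (x i j)) (vec (w j))), ?_,
        Or.inr ⟨⟨h1, h2, h3⟩, fun _ => rfl⟩⟩
      intro d e nd ne hde hlk' d1 d2 d3 d4 d5 d6
      have t := tri (a := vec (u i)) (b := vec (x i j)) (c := vec (w j)) (d := vec d) (e := vec e)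
        ⟨gp _ _ _ (hu i) h1 (hw j) (dxu _ _ _).symm (duw _ _) (dxw _ _ _),
         gp _ _ _ (hu i) h1 nd (dxu _ _ _).symm d1.symm d5.symm,
         gp _ _ _ (hu i) h1 ne (dxu _ _ _).symm d2.symm d6.symm,
         gp _ _ _ (hu i) (hw j) nd (duw _ _) d1.symm d3.symm,
         gp _ _ _ (hu i) (hw j) ne (duw _ _) d2.symm d4.symm,
         gp _ _ _ (hu i) nd ne d1.symm d2.symm hde,
         gp _ _ _ h1 (hw j) nd (dxw _ _ _) d5.symm d3.symm,
         gp _ _ _ h1 (hw j) ne (dxw _ _ _) d6.symm d4.symm,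
         gp _ _ _ h1 nd ne d5.symm d6.symm hde,
         gp _ _ _ (hw j) nd ne d3.symm d4.symm hde⟩
      rw [nc _ _ _ _ h2 hlk' d1.symm d2.symm d5.symm d6.symm,
        nc _ _ _ _ h3 hlk' d5.symm d6.symm d3.symm d4.symm,
        X_swap (gp _ _ _ (hu i) (hw j) nd (duw _ _) d1.symm d3.symm)
          (gp _ _ _ (hu i) (hw j) ne (duw _ _) d2.symm d4.symm)] at t
      simpa [bz] using t
  choose t ht1 ht2 using key
  -- crossing numbers of straight edges
  have cr : ∀ i j k l, i ≠ k → j ≠ l →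
      bz (X (vec (u i)) (vec (w j)) (vec (u k)) (vec (w l))) =
        t i j (u k) + t i j (w l) + t k l (u i) + t k l (w j) := by
    intro i j k l hik hjl
    rcases ht2 k l with ⟨h, h0⟩ | ⟨⟨h1, h2, h3⟩, h0⟩
    · rw [h0, h0, add_zero, add_zero]
      exact ht1 i j (u k) (w l) (hu k) (hw l) (duw _ _) h (duu _ _ hik).symm (duw _ _).symm
        (duw _ _) (dww _ _ hjl).symm (dxu _ _ _).symm (dxw _ _ _).symm
    · have a1 := ht1 i j (u k) (x k l) (hu k) h1 (dxu _ _ _).symm h2 (duu _ _ hik).symm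
        (dxu _ _ _) (duw _ _) (dxw _ _ _) (dxu _ _ _).symm (dxx _ _ _ _ hik.symm)
      have a2 := ht1 i j (x k l) (w l) h1 (hw l) (dxw _ _ _) h3 (dxu _ _ _)
        (duw _ _).symm (dxw _ _ _) (dww _ _ hjl).symm (dxx _ _ _ _ hik.symm) (dxw _ _ _).symm
      have tt := tri (a := vec (u k)) (b := vec (x k l)) (c := vec (w l)) (d := vec (u i))
        (e := vec (w j))
        ⟨gp _ _ _ (hu k) h1 (hw l) (dxu _ _ _).symm (duw _ _) (dxw _ _ _),
         gp _ _ _ (hu k) h1 (hu i) (dxu _ _ _).symm (duu _ _ hik.symm) (dxu _ _ _),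
         gp _ _ _ (hu k) h1 (hw j) (dxu _ _ _).symm (duw _ _) (dxw _ _ _),
         gp _ _ _ (hu k) (hw l) (hu i) (duw _ _) (duu _ _ hik.symm) (duw _ _).symm,
         gp _ _ _ (hu k) (hw l) (hw j) (duw _ _) (duw _ _) (dww _ _ hjl.symm),
         gp _ _ _ (hu k) (hu i) (hw j) (duu _ _ hik.symm) (duw _ _) (duw _ _),
         gp _ _ _ h1 (hw l) (hu i) (dxw _ _ _) (dxu _ _ _) (duw _ _).symm,
         gp _ _ _ h1 (hw l) (hw j) (dxw _ _ _) (dxw _ _ _) (dww _ _ hjl.symm),
         gp _ _ _ h1 (hu i) (hw j) (dxu _ _ _) (dxw _ _ _) (duw _ _),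
         gp _ _ _ (hw l) (hu i) (hw j) (duw _ _).symm (dww _ _ hjl.symm) (duw _ _)⟩
      rw [X_comm (vec (u i)) (vec (w j)) (vec (u k)) (vec (x k l)),
        X_comm (vec (u i)) (vec (w j)) (vec (x k l)) (vec (w l)),
        X_swap (gp _ _ _ (hu k) (hw l) (hu i) (duw _ _) (duu _ _ hik.symm) (duw _ _).symm)
          (gp _ _ _ (hu k) (hw l) (hw j) (duw _ _) (duw _ _) (dww _ _ hjl.symm)),
        X_comm (vec (u i)) (vec (w j)) (vec (u k)) (vec (w l)), a1, a2, ← h0, ← h0] at tt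
      linear_combination tt - (t i j (u k) + t i j (x k l) + t i j (w l)) * two
  have st := straight (u := fun i => vec (u i)) (w := fun i => vec (w i))
    ⟨gp _ _ _ (hu _) (hu _) (hu _) (duu _ _ (by decide)) (duu _ _ (by decide))
      (duu _ _ (by decide)),
     gp _ _ _ (hw _) (hw _) (hw _) (dww _ _ (by decide)) (dww _ _ (by decide))
      (dww _ _ (by decide)),
     fun i k j hik => gp _ _ _ (hu i) (hu k) (hw j) (duu _ _ hik) (duw _ _) (duw _ _),
     fun i j l hjl => gp _ _ _ (hu i) (hw j) (hw l) (duw _ _) (duw _ _) (dww _ _ hjl)⟩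
    (fun i k => bz (X (vec (u i)) (vec (w 0)) (vec (u k)) (vec (w 1))) +
      bz (X (vec (u i)) (vec (w 2)) (vec (u k)) (vec (w 1))) +
      bz (X (vec (u i)) (vec (w 2)) (vec (u k)) (vec (w 0)))) (fun _ _ => rfl)
  rw [cr 0 0 1 1 (by decide) (by decide), cr 0 2 1 1 (by decide) (by decide),
    cr 0 2 1 0 (by decide) (by decide), cr 0 0 2 1 (by decide) (by decide),
    cr 0 2 2 1 (by decide) (by decide), cr 0 2 2 0 (by decide) (by decide),
    cr 1 0 0 1 (by decide) (by decide), cr 1 2 0 1 (by decide) (by decide),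
    cr 1 2 0 0 (by decide) (by decide), cr 1 0 2 1 (by decide) (by decide),
    cr 1 2 2 1 (by decide) (by decide), cr 1 2 2 0 (by decide) (by decide),
    cr 2 0 0 1 (by decide) (by decide), cr 2 2 0 1 (by decide) (by decide),
    cr 2 2 0 0 (by decide) (by decide), cr 2 0 1 1 (by decide) (by decide),
    cr 2 2 1 1 (by decide) (by decide), cr 2 2 1 0 (by decide) (by decide)] at st
  have st2 : (1 : ZMod 2) = 0 := by
    linear_combination (-1 : ZMod 2) * st +
    (t 0 0 (u 1) + t 0 0 (u 2) + t 0 0 (w 1) + t 0 0 (w 2) + t 0 1 (u 1) + t 0 1 (u 2) +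
      t 0 1 (w 0) + t 0 1 (w 2) + t 0 2 (u 1) + t 0 2 (u 2) + t 0 2 (w 0) + t 0 2 (w 1) +
      t 1 0 (u 0) + t 1 0 (u 2) + t 1 0 (w 1) + t 1 0 (w 2) + t 1 1 (u 0) + t 1 1 (u 2) +
      t 1 1 (w 0) + t 1 1 (w 2) + t 1 2 (u 0) + t 1 2 (u 2) + t 1 2 (w 0) + t 1 2 (w 1) +
      t 2 0 (u 0) + t 2 0 (u 1) + t 2 0 (w 1) + t 2 0 (w 2) + t 2 1 (u 0) + t 2 1 (u 1) +
      t 2 1 (w 0) + t 2 1 (w 2) + t 2 2 (u 0) + t 2 2 (u 1) + t 2 2 (w 0) + t 2 2 (w 1)) * two
  exact absurd st2 (by decide)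

end Pool.Agent.helper13.Orn
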