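import Mathlib
import Pool.Agent.helper13.Orn.Parity

/-!
# Generic projection to `ℝ³`
-/

namespace Pool.Agent.helper13.Orn

open Polynomial in
/-- generic positive combination avoiding all spans of triples -/
theorem exists_generic {L W : Type*} [Fintype L] [AddCommGroup W] [Module ℝ W]
    [FiniteDimensional ℝ W] (q : L → W)
    (h4 : 4 ≤ Module.finrank ℝ (Submodule.span ℝ (Set.range q))) :
    ∃ κ : L → ℝ, (∀ y, 0 < κ y) ∧ ∀ a b c : L,
      ∑ y, κ y • q y ∉ Submodule.span ℝ (Set.range ![q a, q b, q c]) := by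
  classical
  have h1 : ∀ τ : L × L × L, ∃ f : W →ₗ[ℝ] ℝ,
      (∀ w ∈ Submodule.span ℝ (Set.range ![q τ.1, q τ.2.1, q τ.2.2]), f w = 0) ∧
      ∃ y, f (q y) ≠ 0 := by
    intro τ
    have : ∃ y, q y ∉ Submodule.span ℝ (Set.range ![q τ.1, q τ.2.1, q τ.2.2]) := by
      by_contra hcon
      simp only [not_exists, not_not] at hcon
      have hle : Submodule.span ℝ (Set.range q) ≤
          Submodule.span ℝ (Set.range ![q τ.1, q τ.2.1, q τ.2.2]) := by
        rw [Submodule.span_le]
        rintro _ ⟨y, rfl⟩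
        exact hcon y
      have h3 : Module.finrank ℝ (Submodule.span ℝ (Set.range ![q τ.1, q τ.2.1, q τ.2.2])) ≤ 3 := by
        have := finrank_range_le_card (R := ℝ) ![q τ.1, q τ.2.1, q τ.2.2]
        simpa [Set.finrank] using this
      have := Submodule.finrank_mono hle
      omega
    obtain ⟨y, hy⟩ := this
    obtain ⟨f, hf1, hf2⟩ := Submodule.exists_le_ker_of_notMem hy
    exact ⟨f, fun w hw => hf2 hw, y, hf1⟩
  choose f hf1 hf2 using h1
  let n : L → ℕ := fun y => (Fintype.equivFin L y : ℕ)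
  have hn : Function.Injective n := fun a b h => (Fintype.equivFin L).injective (Fin.ext h)
  let P : L × L × L → ℝ[X] := fun τ => ∑ y, C (f τ (q y)) * Polynomial.X ^ (n y)
  have hP : ∀ τ, P τ ≠ 0 := by
    intro τ h0
    obtain ⟨y, hy⟩ := hf2 τ
    have : (P τ).coeff (n y) = f τ (q y) := by
      simp only [P, finsetSum_coeff, coeff_C_mul, coeff_X_pow]
      rw [Finset.sum_eq_single y]
      · simp
      · intro b _ hb
        have : n y ≠ n b := fun h => hb (hn h).symm
        simp [this]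
      · intro h; exact absurd (Finset.mem_univ _) h
    rw [h0, coeff_zero] at this
    exact hy this.symm
  have hQ : (∏ τ, P τ) ≠ 0 := Finset.prod_ne_zero_iff.mpr fun τ _ => hP τ
  obtain ⟨x, hx0, hx⟩ : ∃ x : ℝ, 0 < x ∧ (∏ τ, P τ).eval x ≠ 0 := by
    by_contra hcon
    apply hQ
    apply eq_zero_of_infinite_isRoot
    refine (Set.Ioi_infinite (0 : ℝ)).mono fun x hx => ?_
    by_contra hr
    exact hcon ⟨x, hx, hr⟩
  refine ⟨fun y => x ^ (n y), fun y => pow_pos hx0 _, ?_⟩
  intro a b c hmem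
  have h2 := hf1 (a, b, c) _ hmem
  rw [eval_prod, Finset.prod_ne_zero_iff] at hx
  apply hx (a, b, c) (Finset.mem_univ _)
  rw [← h2, map_sum]
  simp only [P, eval_finsetSum, eval_mul, eval_C, eval_pow, eval_X, map_smul, smul_eq_mul]
  exact Finset.sum_congr rfl fun y _ => mul_comm _ _

theorem exists_proj {L W : Type*} [Fintype L] [AddCommGroup W] [Module ℝ W]
    [FiniteDimensional ℝ W] (q : L → W)
    (h4 : Module.finrank ℝ (Submodule.span ℝ (Set.range q)) = 4) :
    ∃ (κ : L → ℝ) (φ : W →ₗ[ℝ] V3), (∀ y, 0 < κ y) ∧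
      (∀ w ∈ Submodule.span ℝ (Set.range q), φ w = 0 → ∃ s : ℝ, w = s • ∑ y, κ y • q y) ∧
      ∀ a b c : L, LinearIndependent ℝ ![q a, q b, q c] →
        D (φ (q a)) (φ (q b)) (φ (q c)) ≠ 0 := by
  classical
  obtain ⟨κ, hκ, hgen⟩ := exists_generic q h4.ge
  set S := Submodule.span ℝ (Set.range q) with hS
  have hqS : ∀ y, q y ∈ S := fun y => Submodule.subset_span ⟨y, rfl⟩
  set o : W := ∑ y, κ y • q y with ho
  have hoS : o ∈ S := Submodule.sum_mem _ fun y _ => S.smul_mem _ (hqS y)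
  have ho0 : o ≠ 0 := by
    intro h0
    have hL : Nonempty L := by
      by_contra hcon
      rw [not_nonempty_iff] at hcon
      have : S = ⊥ := by rw [hS, Set.range_eq_empty, Submodule.span_empty]
      rw [this, finrank_bot] at h4
      omega
    obtain ⟨a⟩ := hL
    apply hgen a a a
    rw [h0]
    exact Submodule.zero_mem _
  let oS : S := ⟨o, hoS⟩
  have hoS0 : oS ≠ 0 := fun h => ho0 (congrArg Subtype.val h)
  let O : Submodule ℝ S := Submodule.span ℝ {oS}
  have hO : Module.finrank ℝ O = 1 := finrank_span_singleton hoS0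
  have hQ : Module.finrank ℝ (S ⧸ O) = Module.finrank ℝ V3 := by
    have := Submodule.finrank_quotient_add_finrank O
    rw [hO, h4] at this
    simp only [V3, Module.finrank_fintype_fun_eq_card, Fintype.card_fin]
    omega
  let e : (S ⧸ O) ≃ₗ[ℝ] V3 := LinearEquiv.ofFinrankEq _ _ hQ
  obtain ⟨φ, hφ⟩ := LinearMap.exists_extend ((e : (S ⧸ O) →ₗ[ℝ] V3) ∘ₗ O.mkQ)
  have hφ' : ∀ w (hw : w ∈ S), φ w = e (O.mkQ ⟨w, hw⟩) := by
    intro w hw
    have := LinearMap.congr_fun hφ ⟨w, hw⟩
    simpa using this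
  have hker : ∀ w ∈ S, φ w = 0 → ∃ s : ℝ, w = s • o := by
    intro w hw h0
    rw [hφ' w hw, LinearEquiv.map_eq_zero_iff, Submodule.mkQ_apply,
      Submodule.Quotient.mk_eq_zero, Submodule.mem_span_singleton] at h0
    obtain ⟨s, hs⟩ := h0
    exact ⟨s, (congrArg Subtype.val hs).symm⟩
  refine ⟨κ, φ, hκ, hker, ?_⟩
  intro a b c hli hD
  have hdet : (Matrix.of ![φ (q a), φ (q b), φ (q c)]).det = 0 := by
    rw [Matrix.det_fin_three, ← hD]
    unfold D
    simp
    ring
  obtain ⟨v, hv0, hv⟩ := Matrix.exists_vecMul_eq_zero_iff.mpr hdet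
  have e1 : φ (v 0 • q a + v 1 • q b + v 2 • q c) = 0 := by
    rw [map_add, map_add, map_smul, map_smul, map_smul, ← hv]
    ext i
    simp [Matrix.vecMul, dotProduct, Fin.sum_univ_three]
  obtain ⟨s, hs⟩ := hker _ (S.add_mem (S.add_mem (S.smul_mem _ (hqS a)) (S.smul_mem _ (hqS b)))
    (S.smul_mem _ (hqS c))) e1
  by_cases hs0 : s = 0
  · rw [hs0, zero_smul] at hs
    rw [Fintype.linearIndependent_iff] at hli
    have := hli v (by simpa [Fin.sum_univ_three] using hs)
    exact hv0 (funext this)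
  · apply hgen a b c
    have hmem : v 0 • q a + v 1 • q b + v 2 • q c ∈
        Submodule.span ℝ (Set.range ![q a, q b, q c]) := by
      refine Submodule.add_mem _ (Submodule.add_mem _ ?_ ?_) ?_ <;>
        refine Submodule.smul_mem _ _ (Submodule.subset_span ?_)
      · exact ⟨0, rfl⟩
      · exact ⟨1, rfl⟩
      · exact ⟨2, rfl⟩
    rw [hs] at hmem
    exact (Submodule.smul_mem_iff _ hs0).mp hmem

end Pool.Agent.helper13.Orn
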