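import Mathlib
import Pool.Agent.helper13.Orn.Dim
import Pool.Agent.helper13.Orn.General

/-!
# The abstract non-realisability theorem
-/

namespace Pool.Agent.helper13.Orn

open OrderDual

theorem noncross {L W : Type*} [Fintype L] [AddCommGroup W] [Module ℝ W]
    (q : L → W) (κ : L → ℝ) (hκ : ∀ y, 0 < κ y) (φ : W →ₗ[ℝ] V3)
    (hker : ∀ w ∈ Submodule.span ℝ (Set.range q), φ w = 0 → ∃ s : ℝ, w = s • ∑ y, κ y • q y)
    {a b d e : L} (f g : W →ₗ[ℝ] ℝ) (hf : ∀ y, 0 ≤ f (q y)) (hg : ∀ y, 0 ≤ g (q y))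
    (fa : f (q a) = 0) (fb : f (q b) = 0) (fd : 0 < f (q d)) (fe : 0 < f (q e))
    (ga : 0 < g (q a)) (gb : 0 < g (q b)) (gd : g (q d) = 0) (ge : g (q e) = 0) :
    X (φ (q a)) (φ (q b)) (φ (q d)) (φ (q e)) = false := by
  have hpos : ∀ (h : W →ₗ[ℝ] ℝ), (∀ y, 0 ≤ h (q y)) → ∀ z, 0 < h (q z) →
      0 < h (∑ y, κ y • q y) := by
    intro h h1 z h2
    rw [map_sum]
    refine Finset.sum_pos' (fun y _ => ?_) ⟨z, Finset.mem_univ _, ?_⟩
    · rw [map_smul, smul_eq_mul]; exact mul_nonneg (hκ y).le (h1 y)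
    · rw [map_smul, smul_eq_mul]; exact mul_pos (hκ z) h2
  have fo := hpos f hf d fd
  have go := hpos g hg a ga
  by_contra hX
  have hX' : X (φ (q a)) (φ (q b)) (φ (q d)) (φ (q e)) = true := by
    simpa using hX
  unfold X at hX'
  simp only [Bool.and_eq_true, beq_iff_eq] at hX'
  obtain ⟨⟨x1, x2⟩, x3⟩ := hX'
  set A := D (φ (q b)) (φ (q d)) (φ (q e)) with hA
  set A' := D (φ (q a)) (φ (q d)) (φ (q e)) with hA'
  set B' := D (φ (q a)) (φ (q b)) (φ (q e)) with hB'
  set E := D (φ (q a)) (φ (q b)) (φ (q d)) with hE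
  have hrel : φ (A • q a - A' • q b + B' • q d - E • q e) = 0 := by
    rw [map_sub, map_add, map_sub, map_smul, map_smul, map_smul, map_smul]
    ext i
    simp only [hA, hA', hB', hE, D, Pi.sub_apply, Pi.add_apply, Pi.smul_apply, smul_eq_mul,
      Pi.zero_apply]
    fin_cases i
    · simp only [Fin.zero_eta, Fin.isValue]; ring
    · simp only [Fin.mk_one, Fin.isValue]; ring
    · simp only [Fin.reduceFinMk, Fin.isValue]; ring
  have hmem : ∀ y, q y ∈ Submodule.span ℝ (Set.range q) := fun y => Submodule.subset_span ⟨y, rfl⟩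
  obtain ⟨s, hs⟩ := hker _ (Submodule.sub_mem _ (Submodule.add_mem _ (Submodule.sub_mem _
    (Submodule.smul_mem _ A (hmem a)) (Submodule.smul_mem _ A' (hmem b)))
    (Submodule.smul_mem _ B' (hmem d))) (Submodule.smul_mem _ E (hmem e))) hrel
  have hf1 := congrArg f hs
  have hg1 := congrArg g hs
  simp only [map_sub, map_add, map_smul, smul_eq_mul, fa, fb, gd, ge, mul_zero] at hf1 hg1
  unfold sg at x1 x2 x3
  by_cases hAp : 0 < A
  · simp only [hAp, decide_true] at x1 x2 x3
    have h1 : ¬ (0 < A') := by simpa using x1.symm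
    have h2 : ¬ (0 < B') := by simpa using x2.symm
    have h3 : 0 < E := by simpa using x3.symm
    have s1 : s < 0 := by
      by_contra hc
      have t1 := mul_nonneg (not_lt.mp hc) fo.le
      have t2 := mul_nonpos_of_nonpos_of_nonneg (not_lt.mp h2) fd.le
      have t3 := mul_pos h3 fe
      linarith
    have s2 : 0 < s := by
      by_contra hc
      have t1 := mul_nonpos_of_nonpos_of_nonneg (not_lt.mp hc) go.le
      have t2 := mul_nonpos_of_nonpos_of_nonneg (not_lt.mp h1) gb.le
      have t3 := mul_pos hAp ga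
      linarith
    linarith
  · simp only [hAp, decide_false] at x1 x2 x3
    have h1 : 0 < A' := by simpa using x1.symm
    have h2 : 0 < B' := by simpa using x2.symm
    have h3 : ¬ (0 < E) := by simpa using x3.symm
    have s1 : 0 < s := by
      by_contra hc
      have t1 := mul_nonpos_of_nonpos_of_nonneg (not_lt.mp hc) fo.le
      have t2 := mul_pos h2 fd
      have t3 := mul_nonpos_of_nonpos_of_nonneg (not_lt.mp h3) fe.le
      linarith
    have s2 : s < 0 := by
      by_contra hc
      have t1 := mul_nonneg (not_lt.mp hc) go.le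
      have t2 := mul_pos h1 gb
      have t3 := mul_nonpos_of_nonpos_of_nonneg (not_lt.mp hAp) ga.le
      linarith
    linarith

namespace Rlz

variable {L W : Type*} [PartialOrder L] [Fintype L] [AddCommGroup W] [Module ℝ W]
variable (R : Rlz L W)

theorem indep3 {x a b c : L} (ha : R.nb x a) (hb : R.nb x b) (hc : R.nb x c)
    (hab : a ≠ b) (hac : a ≠ c) (hbc : b ≠ c) :
    LinearIndependent ℝ ![R.d x a, R.d x b, R.d x c] := by
  classical
  have H0 : ∀ α β γ : ℝ, 0 ≤ α → 0 ≤ β → 0 ≤ γ →
      α • R.d x a + β • R.d x b + γ • R.d x c = 0 → α = 0 ∧ β = 0 ∧ γ = 0 := by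
    intro α β γ h1 h2 h3 e
    have := R.ext x (fun r => (if r = a then α else 0) + (if r = b then β else 0) +
      (if r = c then γ else 0)) (fun r => by
        refine add_nonneg (add_nonneg ?_ ?_) ?_ <;> split_ifs <;> simp [h1, h2, h3]) (by
      rw [← e]
      unfold d
      simp only [add_smul, Finset.sum_add_distrib, ite_smul, zero_smul, Finset.sum_ite_eq',
        Finset.mem_univ, if_true])
    refine ⟨?_, ?_, ?_⟩
    · simpa [hab, hac] using this a (R.nb_ne ha).symm
    · simpa [hab.symm, hbc] using this b (R.nb_ne hb).symm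
    · simpa [hac.symm, hbc.symm] using this c (R.nb_ne hc).symm
  have H1 : ∀ (a b c : L), R.nb x a → R.nb x b → R.nb x c → a ≠ b → a ≠ c → b ≠ c →
      ∀ α β γ : ℝ, 0 ≤ α → 0 ≤ β → 0 ≤ γ →
      α • R.d x a + β • R.d x b = γ • R.d x c → α = 0 ∧ β = 0 ∧ γ = 0 := by
    intro a b c ha hb hc hab hac hbc α β γ h1 h2 h3 e
    have := R.ray x c hc γ (fun r => (if r = a then α else 0) + (if r = b then β else 0)) h3
      (fun r => by
        refine add_nonneg ?_ ?_ <;> split_ifs <;> simp [h1, h2]) (by
      change γ • R.d x c = _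
      rw [← e]
      unfold d
      simp only [add_smul, Finset.sum_add_distrib, ite_smul, zero_smul, Finset.sum_ite_eq',
        Finset.mem_univ, if_true])
    have e1 : α = 0 := by simpa [hab] using this a (R.nb_ne ha).symm hac
    have e2 : β = 0 := by simpa [hab.symm] using this b (R.nb_ne hb).symm hbc
    refine ⟨e1, e2, ?_⟩
    rw [e1, e2, zero_smul, zero_smul, add_zero] at e
    rcases smul_eq_zero.mp e.symm with h | h
    · exact h
    · exact absurd h (R.d_ne (R.nb_ne hc))
  rw [Fintype.linearIndependent_iff]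
  intro v hv
  have e : v 0 • R.d x a + v 1 • R.d x b + v 2 • R.d x c = 0 := by
    simpa [Fin.sum_univ_three] using hv
  have key : v 0 = 0 ∧ v 1 = 0 ∧ v 2 = 0 := by
    rcases le_total 0 (v 0) with h0 | h0 <;> rcases le_total 0 (v 1) with h1 | h1 <;>
      rcases le_total 0 (v 2) with h2 | h2
    · exact H0 _ _ _ h0 h1 h2 e
    · obtain ⟨p1, p2, p3⟩ := H1 a b c ha hb hc hab hac hbc (v 0) (v 1) (-v 2) h0 h1 (by linarith)
        (by rw [neg_smul]; exact eq_neg_of_add_eq_zero_left e)
      exact ⟨p1, p2, by linarith⟩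
    · obtain ⟨p1, p2, p3⟩ := H1 a c b ha hc hb hac hab hbc.symm (v 0) (v 2) (-v 1) h0 h2
        (by linarith) (by
          rw [neg_smul]; apply eq_neg_of_add_eq_zero_left; rw [← e]; abel)
      exact ⟨p1, by linarith, p2⟩
    · obtain ⟨p1, p2, p3⟩ := H1 b c a hb hc ha hbc hab.symm hac.symm (-v 1) (-v 2) (v 0)
        (by linarith) (by linarith) h0 (by
          rw [neg_smul, neg_smul]
          have : v 0 • R.d x a = -(v 1 • R.d x b + v 2 • R.d x c) := by
            apply eq_neg_of_add_eq_zero_left; rw [← e]; abel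
          rw [this]; abel)
      exact ⟨p3, by linarith, by linarith⟩
    · obtain ⟨p1, p2, p3⟩ := H1 b c a hb hc ha hbc hab.symm hac.symm (v 1) (v 2) (-v 0)
        h1 h2 (by linarith) (by
          rw [neg_smul]; apply eq_neg_of_add_eq_zero_left; rw [← e]; abel)
      exact ⟨by linarith, p1, p2⟩
    · obtain ⟨p1, p2, p3⟩ := H1 a c b ha hc hb hac hab hbc.symm (-v 0) (-v 2) (v 1)
        (by linarith) (by linarith) h1 (by
          rw [neg_smul, neg_smul]
          have : v 1 • R.d x b = -(v 0 • R.d x a + v 2 • R.d x c) := by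
            apply eq_neg_of_add_eq_zero_left; rw [← e]; abel
          rw [this]; abel)
      exact ⟨by linarith, p3, by linarith⟩
    · obtain ⟨p1, p2, p3⟩ := H1 a b c ha hb hc hab hac hbc (-v 0) (-v 1) (v 2)
        (by linarith) (by linarith) h2 (by
          rw [neg_smul, neg_smul]
          have : v 2 • R.d x c = -(v 0 • R.d x a + v 1 • R.d x b) := by
            apply eq_neg_of_add_eq_zero_left; rw [← e]; abel
          rw [this]; abel)
      exact ⟨by linarith, by linarith, p3⟩
    · obtain ⟨p1, p2, p3⟩ := H0 (-v 0) (-v 1) (-v 2) (by linarith) (by linarith) (by linarith) (by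
        rw [neg_smul, neg_smul, neg_smul, ← neg_add, ← neg_add, e, neg_zero])
      exact ⟨by linarith, by linarith, by linarith⟩
  intro i
  fin_cases i
  · exact key.1
  · exact key.2.1
  · exact key.2.2

end Rlz

/-- The combinatorial configuration in the poset which prevents realisability. -/
structure Config (L : Type*) [PartialOrder L] where
  t : L
  b : L
  p : L
  q : L
  E : L
  u0 : L
  w0 : L
  u : Fin 3 → L
  w : Fin 3 → L
  x : Fin 3 → Fin 3 → L
  sq : ∀ i j, UpSq (x i j) (u i) (w j) t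
  sqE : UpSq E u0 w0 t
  dsqE : UpSq (toDual E) (toDual p) (toDual q) (toDual b)
  duu : ∀ i k, i ≠ k → u i ≠ u k
  dww : ∀ i k, i ≠ k → w i ≠ w k
  duw : ∀ i j, u i ≠ w j
  dxu : ∀ i j k, x i j ≠ u k
  dxw : ∀ i j k, x i j ≠ w k
  dxx : ∀ i j k l, (i ≠ k ∨ j ≠ l) → x i j ≠ x k l

theorem no_rlz {L W : Type*} [PartialOrder L] [Fintype L] [AddCommGroup W] [Module ℝ W]
    [FiniteDimensional ℝ W] (C : Config L) (R : Rlz L W) : False := by
  classical
  obtain ⟨t, b, p, q', E, u0, w0, u, w, x, sq, sqE, dsqE, duu, dww, duw, dxu, dxw, dxx⟩ := C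
  set q : L → W := fun y => R.d t y with hq
  have shift : ∀ (f : W →ₗ[ℝ] ℝ) (z : L), f (R.d z t) = 0 → ∀ y, f (q y) = f (R.d z y) := by
    intro f z h y
    simp only [hq]
    unfold Rlz.d at h ⊢
    rw [map_sub] at h ⊢
    rw [map_sub]; linarith
  have nu : ∀ i, R.nb t (u i) := fun i => R.nb_symm (R.nb_cov (sq i 0).cov_t)
  have nw : ∀ j, R.nb t (w j) := fun j => R.nb_symm (R.nb_cov (sq 0 j).symm.cov_t)
  -- the faces
  have direct : ∀ i j, ¬ R.nb (x i j) t → ∃ f : W →ₗ[ℝ] ℝ, (∀ y, 0 ≤ f (q y)) ∧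
      ∀ y, f (q y) = 0 ↔ (y = x i j ∨ y = u i ∨ y = w j ∨ y = t) := by
    intro i j h
    obtain ⟨f, h1, h2⟩ := R.face_direct (sq i j) h
    have h3 := shift f (x i j) ((h2 t).mpr (sq i j).xt.le)
    refine ⟨f, fun y => by rw [h3]; exact h1 y, fun y => ?_⟩
    rw [h3, h2]
    constructor
    · exact (sq i j).mem y
    · rintro (e | e | e | e)
      · rw [e]
      · rw [e]; exact (sq i j).xu.le
      · rw [e]; exact (sq i j).xv.le
      · rw [e]; exact (sq i j).xt.le
  have bent1 : ∀ i j, R.nb (x i j) t → ∃ f : W →ₗ[ℝ] ℝ, (∀ y, 0 ≤ f (q y)) ∧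
      ∀ y, f (q y) = 0 ↔ (y = x i j ∨ y = u i ∨ y = t) := by
    intro i j h
    obtain ⟨f, h1, h2⟩ := R.face_bent (sq i j) h
    have h3 := shift f (x i j) ((h2 t).mpr (Or.inr (Or.inr rfl)))
    exact ⟨f, fun y => by rw [h3]; exact h1 y, fun y => by rw [h3]; exact h2 y⟩
  have bent2 : ∀ i j, R.nb (x i j) t → ∃ f : W →ₗ[ℝ] ℝ, (∀ y, 0 ≤ f (q y)) ∧
      ∀ y, f (q y) = 0 ↔ (y = x i j ∨ y = w j ∨ y = t) := by
    intro i j h
    obtain ⟨f, h1, h2⟩ := R.face_bent (sq i j).symm h
    have h3 := shift f (x i j) ((h2 t).mpr (Or.inr (Or.inr rfl)))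
    exact ⟨f, fun y => by rw [h3]; exact h1 y, fun y => by rw [h3]; exact h2 y⟩
  -- the dimension
  have hle : Module.finrank ℝ (Submodule.span ℝ (Set.range q)) ≤ 4 := by
    have h1 : Submodule.span ℝ (Set.range q) ≤
        Submodule.span ℝ (Set.range ![R.d E p, R.d E q', R.d E u0, R.d E w0]) := by
      rw [Submodule.span_le]
      rintro _ ⟨y, rfl⟩
      have e : q y = R.d E y - R.d E t := by
        simp only [hq]; unfold Rlz.d; abel
      have hset : ({R.d E p, R.d E q', R.d E u0, R.d E w0} : Set W) =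
          Set.range ![R.d E p, R.d E q', R.d E u0, R.d E w0] := by
        ext z
        simp only [Matrix.range_cons, Matrix.range_empty, Set.union_empty, Set.mem_insert_iff,
          Set.mem_singleton_iff, Set.mem_union]
      rw [SetLike.mem_coe, e, ← hset]
      exact Submodule.sub_mem _ (R.dim_le sqE dsqE y) (R.dim_le sqE dsqE t)
    refine (Submodule.finrank_mono h1).trans ?_
    have := finrank_range_le_card (R := ℝ) ![R.d E p, R.d E q', R.d E u0, R.d E w0]
    simpa [Set.finrank] using this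
  have hge : 4 ≤ Module.finrank ℝ (Submodule.span ℝ (Set.range q)) := by
    have hy : ∀ j : Fin 3, ∃ (y : L) (f : W →ₗ[ℝ] ℝ), (y = w j ∨ y = x 0 j) ∧
        (∀ z, 0 ≤ f (q z)) ∧ f (q (u 0)) = 0 ∧ f (q y) = 0 ∧
        ∀ z, f (q z) = 0 → (z = x 0 j ∨ z = u 0 ∨ z = w j ∨ z = t) := by
      intro j
      by_cases h : R.nb (x 0 j) t
      · obtain ⟨f, h1, h2⟩ := bent1 0 j h
        refine ⟨x 0 j, f, Or.inr rfl, h1, (h2 _).mpr (Or.inr (Or.inl rfl)),
          (h2 _).mpr (Or.inl rfl), fun z hz => ?_⟩
        rcases (h2 z).mp hz with e | e | e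
        · exact Or.inl e
        · exact Or.inr (Or.inl e)
        · exact Or.inr (Or.inr (Or.inr e))
      · obtain ⟨f, h1, h2⟩ := direct 0 j h
        exact ⟨w j, f, Or.inl rfl, h1, (h2 _).mpr (Or.inr (Or.inl rfl)),
          (h2 _).mpr (Or.inr (Or.inr (Or.inl rfl))), fun z hz => (h2 z).mp hz⟩
    choose y f hyc hf0 hfu hfy hfz using hy
    have hpos : ∀ j k, j ≠ k → 0 < f j (q (y k)) := by
      intro j k hjk
      refine lt_of_le_of_ne (hf0 j _) (fun h => ?_)
      have hxt : x 0 k ≠ t := (sq 0 k).xt.ne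
      have hwt : w k ≠ t := (sq 0 k).vt.ne
      rcases hfz j _ h.symm with e | e | e | e <;> rcases hyc k with e' | e' <;> rw [e'] at e
      · exact dxw _ _ _ e.symm
      · exact dxx _ _ _ _ (Or.inr hjk.symm) e
      · exact duw _ _ e.symm
      · exact dxu _ _ _ e
      · exact dww _ _ hjk.symm e
      · exact dxw _ _ _ e
      · exact hwt e
      · exact hxt e
    have hli : LinearIndependent ℝ ![q (u 0), q (y 0), q (y 1), q (y 2)] := by
      rw [Fintype.linearIndependent_iff]
      intro v hv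
      have e : v 0 • q (u 0) + v 1 • q (y 0) + v 2 • q (y 1) + v 3 • q (y 2) = 0 := by
        simpa [Fin.sum_univ_four] using hv
      have e0 := congrArg (f 0) e
      have e1 := congrArg (f 1) e
      have e2 := congrArg (f 2) e
      simp only [map_add, map_smul, smul_eq_mul, hfu, hfy, mul_zero, zero_add, map_zero,
        add_zero] at e0 e1 e2
      have a01 := hpos 0 1 (by decide)
      have a02 := hpos 0 2 (by decide)
      have a10 := hpos 1 0 (by decide)
      have a12 := hpos 1 2 (by decide)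
      have a20 := hpos 2 0 (by decide)
      have a21 := hpos 2 1 (by decide)
      -- signs
      have v1 : v 1 = 0 := by
        rcases lt_trichotomy (v 1) 0 with h | h | h
        · exfalso
          have h3 : 0 < v 3 := by
            by_contra hc
            have := mul_neg_of_neg_of_pos h a10
            have := mul_nonpos_of_nonpos_of_nonneg (not_lt.mp hc) a12.le
            linarith
          have h2 : 0 < v 2 := by
            by_contra hc
            have := mul_neg_of_neg_of_pos h a20
            have := mul_nonpos_of_nonpos_of_nonneg (not_lt.mp hc) a21.le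
            linarith
          have := mul_pos h2 a01
          have := mul_pos h3 a02
          linarith
        · exact h
        · exfalso
          have h3 : v 3 < 0 := by
            by_contra hc
            have := mul_pos h a10
            have := mul_nonneg (not_lt.mp hc) a12.le
            linarith
          have h2 : v 2 < 0 := by
            by_contra hc
            have := mul_pos h a20
            have := mul_nonneg (not_lt.mp hc) a21.le
            linarith
          have := mul_neg_of_neg_of_pos h2 a01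
          have := mul_neg_of_neg_of_pos h3 a02
          linarith
      rw [v1, zero_mul, zero_add] at e1 e2
      have v3 : v 3 = 0 := by
        rcases mul_eq_zero.mp e1 with h | h
        · exact h
        · exact absurd h a12.ne'
      have v2 : v 2 = 0 := by
        rcases mul_eq_zero.mp e2 with h | h
        · exact h
        · exact absurd h a21.ne'
      have v0 : v 0 = 0 := by
        rw [v1, v2, v3] at e
        simp only [zero_smul, add_zero] at e
        rcases smul_eq_zero.mp e with h | h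
        · exact h
        · exact absurd h (R.d_ne (R.nb_ne (nu 0)))
      intro i
      fin_cases i
      · exact v0
      · exact v1
      · exact v2
      · exact v3
    have h1 := finrank_span_eq_card hli
    rw [Fintype.card_fin] at h1
    refine h1.ge.trans ?_
    refine Submodule.finrank_mono (Submodule.span_le.mpr ?_)
    rintro _ ⟨i, rfl⟩
    fin_cases i
    · exact Submodule.subset_span ⟨u 0, rfl⟩
    · exact Submodule.subset_span ⟨y 0, rfl⟩
    · exact Submodule.subset_span ⟨y 1, rfl⟩
    · exact Submodule.subset_span ⟨y 2, rfl⟩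
  obtain ⟨κ, φ, hκ, hker, hgp⟩ := exists_proj q (le_antisymm hle hge)
  -- assemble
  refine no_K33 (fun y => φ (q y)) (fun y => R.nb t y)
    (fun a b => R.nb t a ∧ R.nb t b ∧ ∃ f : W →ₗ[ℝ] ℝ, (∀ y, 0 ≤ f (q y)) ∧ f (q a) = 0 ∧
      f (q b) = 0 ∧ ∀ y, R.nb t y → f (q y) = 0 → y = a ∨ y = b) ?_ ?_ u w x nu nw ?_ duu dww duw
    dxu dxw (fun i j k l h => dxx i j k l (Or.inl h))
  · intro a b c ha hb hc hab hac hbc
    exact hgp a b c (R.indep3 ha hb hc hab hac hbc)
  · rintro a b d e ⟨na, nb', f, hf, fa, fb, fz⟩ ⟨nd, ne, g, hg, gd, ge, gz⟩ had hae hbd hbe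
    have pos : ∀ (h : W →ₗ[ℝ] ℝ) (z a b : L), (∀ y, 0 ≤ h (q y)) →
        (∀ y, R.nb t y → h (q y) = 0 → y = a ∨ y = b) → R.nb t z → z ≠ a → z ≠ b →
        0 < h (q z) := by
      intro h z a b h1 h2 h3 h4 h5
      refine lt_of_le_of_ne (h1 z) (fun h6 => ?_)
      rcases h2 z h3 h6.symm with e | e
      · exact h4 e
      · exact h5 e
    exact noncross q κ hκ φ hker f g hf hg fa fb (pos f d a b hf fz nd had.symm hbd.symm)
      (pos f e a b hf fz ne hae.symm hbe.symm) (pos g a d e hg gz na had hae)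
      (pos g b d e hg gz nb' hbd hbe) gd ge
  · intro i j
    by_cases h : R.nb (x i j) t
    · right
      refine ⟨R.nb_symm h, ⟨nu i, R.nb_symm h, ?_⟩, ⟨R.nb_symm h, nw j, ?_⟩⟩
      · obtain ⟨f, h1, h2⟩ := bent1 i j h
        refine ⟨f, h1, (h2 _).mpr (Or.inr (Or.inl rfl)), (h2 _).mpr (Or.inl rfl), ?_⟩
        intro y hy h0
        rcases (h2 y).mp h0 with e | e | e
        · exact Or.inr e
        · exact Or.inl e
        · exact absurd e (R.nb_ne hy).symm
      · obtain ⟨f, h1, h2⟩ := bent2 i j h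
        refine ⟨f, h1, (h2 _).mpr (Or.inl rfl), (h2 _).mpr (Or.inr (Or.inl rfl)), ?_⟩
        intro y hy h0
        rcases (h2 y).mp h0 with e | e | e
        · exact Or.inl e
        · exact Or.inr e
        · exact absurd e (R.nb_ne hy).symm
    · left
      obtain ⟨f, h1, h2⟩ := direct i j h
      refine ⟨nu i, nw j, f, h1, (h2 _).mpr (Or.inr (Or.inl rfl)),
        (h2 _).mpr (Or.inr (Or.inr (Or.inl rfl))), ?_⟩
      intro y hy h0
      rcases (h2 y).mp h0 with e | e | e | e
      · rw [e] at hy; exact absurd (R.nb_symm hy) h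
      · exact Or.inl e
      · exact Or.inr e
      · exact absurd e (R.nb_ne hy).symm

end Pool.Agent.helper13.Orn
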