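import Mathlib

/-!
# Ornamentation lattices and polytopal realisations: definitions
-/

namespace Pool.Agent.helper13.Orn

/-- `U` is an ornament of the directed graph `D` at `v`: it contains `v`, and every `u ∈ U` has a
directed path to `v` in the subgraph of `D` induced by `U`. -/
def IsOrnament {V : Type*} (D : Digraph V) (v : V) (U : Set V) : Prop :=
  v ∈ U ∧ ∀ u ∈ U, Relation.ReflTransGen (fun a b => a ∈ U ∧ b ∈ U ∧ D.Adj a b) u v

/-- The ornamentations of the directed graph `D`. -/
@[ext]
structure Ornamentation {V : Type*} (D : Digraph V) where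
  /-- the ornament assigned to a vertex -/
  orn : V → Set V
  isOrnament : ∀ v, IsOrnament D v (orn v)
  nested : ∀ u v, u ∈ orn v → orn u ⊆ orn v

/-- The ornamentations of `D` are ordered componentwise:
`O ≤ O'` iff `O(v) ⊆ O'(v)` for all `v`. -/
instance {V : Type*} (D : Digraph V) : PartialOrder (Ornamentation D) :=
  PartialOrder.lift Ornamentation.orn (fun _ _ h => Ornamentation.ext h)

/-- `P` is a convex polytope: the convex hull of finitely many points. -/
def IsPolytope {d : ℕ} (P : Set (EuclideanSpace ℝ (Fin d))) : Prop :=
  ∃ S : Set (EuclideanSpace ℝ (Fin d)), S.Finite ∧ P = convexHull ℝ S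

/-- `x` and `y` are the end points of an edge of `P`: they are distinct and the segment `[x,y]` is
a face of `P`, i.e. the set of the points of `P` at which some linear functional attains its
maximum over `P`. -/
def IsEdge {d : ℕ} (P : Set (EuclideanSpace ℝ (Fin d))) (x y : EuclideanSpace ℝ (Fin d)) : Prop :=
  x ≠ y ∧ IsExposed ℝ P (segment ℝ x y)

/-- The poset `L` is isomorphic to the transitive closure of the graph of some convex polytope
`P ⊆ ℝ^d` oriented by a linear functional `c` which is nonconstant on every edge of `P`:
there is a bijection `φ` of `L` with the vertices of `P` such that `a ≤ b` iff there is a directed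
path of edges, each traversed towards the larger value of `c`, from `φ a` to `φ b`. -/
def IsPolytopal (L : Type*) [PartialOrder L] : Prop :=
  ∃ (d : ℕ) (P : Set (EuclideanSpace ℝ (Fin d))) (c : EuclideanSpace ℝ (Fin d) →ₗ[ℝ] ℝ),
    IsPolytope P ∧ (∀ x y, IsEdge P x y → c x ≠ c y) ∧
    ∃ φ : L ≃ P.extremePoints ℝ, ∀ a b : L, a ≤ b ↔
      Relation.ReflTransGen
        (fun x y : P.extremePoints ℝ => IsEdge P (x : EuclideanSpace ℝ (Fin d)) y ∧
          c x < c y) (φ a) (φ b)

end Pool.Agent.helper13.Orn
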