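import Mathlib
import Pool.Agent.helper13.Orn.Defs
import Pool.Agent.helper13.Orn.Rlz

/-!
# A polytopal realisation gives an abstract realisation
-/

namespace Pool.Agent.helper13.Orn

theorem exists_weights {L E : Type*} [Fintype L] [AddCommGroup E] [Module ℝ E] (pos : L → E)
    {z : E} (hz : z ∈ convexHull ℝ (Set.range pos)) :
    ∃ w : L → ℝ, (∀ r, 0 ≤ w r) ∧ ∑ r, w r = 1 ∧ z = ∑ r, w r • pos r := by
  classical
  have h1 : convexHull ℝ (Set.range pos) ⊆
      (Fintype.linearCombination ℝ pos : (L → ℝ) →ₗ[ℝ] E) '' stdSimplex ℝ L := by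
    apply convexHull_min
    · rintro _ ⟨r, rfl⟩
      refine ⟨Pi.single r 1, single_mem_stdSimplex ℝ r, ?_⟩
      simp [Fintype.linearCombination_apply_single]
    · exact (convex_stdSimplex ℝ L).linear_image _
  obtain ⟨w, hw, e⟩ := h1 hz
  exact ⟨w, hw.1, hw.2, by rw [← e, Fintype.linearCombination_apply]⟩

section geom

variable {d : ℕ} {L : Type*} [Fintype L]

variable {P : Set (EuclideanSpace ℝ (Fin d))} {pos : L → EuclideanSpace ℝ (Fin d)}

theorem hull_vertices {P : Set (EuclideanSpace ℝ (Fin d))} (hP : IsPolytope P) : P = convexHull ℝ (P.extremePoints ℝ) := by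
  obtain ⟨S, hS, rfl⟩ := hP
  have h1 : IsCompact (convexHull ℝ S) := hS.isCompact_convexHull ℝ
  have h2 := closure_convexHull_extremePoints h1 (convex_convexHull ℝ S)
  have h3 : ((convexHull ℝ S).extremePoints ℝ).Finite := hS.subset extremePoints_convexHull_subset
  rw [IsClosed.closure_eq (h3.isClosed_convexHull ℝ)] at h2
  exact h2.symm

theorem geom_ext [DecidableEq L] (hP : Convex ℝ P) (hpos : ∀ r, pos r ∈ P.extremePoints ℝ)
    (hinj : Function.Injective pos) (x : L) (μ : L → ℝ) (hμ : ∀ r, 0 ≤ μ r)
    (e : ∑ r, μ r • (pos r - pos x) = 0) : ∀ r, r ≠ x → μ r = 0 := by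
  intro r0 hr0
  by_contra hne
  have hr0pos : 0 < μ r0 := lt_of_le_of_ne (hμ r0) (Ne.symm hne)
  set M := ∑ r ∈ Finset.univ.erase x, μ r with hM
  have hMpos : 0 < M := Finset.sum_pos' (fun r _ => hμ r)
    ⟨r0, Finset.mem_erase.mpr ⟨hr0, Finset.mem_univ _⟩, hr0pos⟩
  have e1 : ∑ r ∈ Finset.univ.erase x, μ r • (pos r - pos x) = 0 := by
    rw [← e, ← Finset.sum_erase_add _ _ (Finset.mem_univ x), sub_self, smul_zero, add_zero]
  have e2 : pos x = ∑ r ∈ Finset.univ.erase x, (μ r / M) • pos r := by
    have : ∑ r ∈ Finset.univ.erase x, μ r • pos r = M • pos x := by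
      rw [hM, Finset.sum_smul, ← sub_eq_zero, ← Finset.sum_sub_distrib, ← e1]
      exact Finset.sum_congr rfl fun r _ => by rw [smul_sub]
    have h2 : ∑ r ∈ Finset.univ.erase x, (μ r / M) • pos r =
        M⁻¹ • ∑ r ∈ Finset.univ.erase x, μ r • pos r := by
      rw [Finset.smul_sum]
      exact Finset.sum_congr rfl fun r _ => by rw [smul_smul, div_eq_inv_mul]
    rw [h2, this, smul_smul, inv_mul_cancel₀ hMpos.ne', one_smul]
  have hx := (hP.mem_extremePoints_iff_mem_sdiff_convexHull_sdiff).mp (hpos x)
  apply hx.2
  rw [e2]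
  refine (convex_convexHull ℝ _).sum_mem (fun r _ => div_nonneg (hμ r) hMpos.le) ?_ ?_
  · rw [← Finset.sum_div, ← hM, div_self hMpos.ne']
  · intro r hr
    apply subset_convexHull
    refine ⟨extremePoints_subset (hpos r), ?_⟩
    rw [← e2]
    intro hc
    exact (Finset.mem_erase.mp hr).1 (hinj hc)

theorem geom_ray (hpos : ∀ r, pos r ∈ P.extremePoints ℝ) (hP : Convex ℝ P)
    (hinj : Function.Injective pos) (x s : L) (hnb : IsEdge P (pos x) (pos s)) (α : ℝ) (μ : L → ℝ)
    (hμ : ∀ r, 0 ≤ μ r)
    (e : α • (pos s - pos x) = ∑ r, μ r • (pos r - pos x)) : ∀ r, r ≠ x → r ≠ s → μ r = 0 := by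
  obtain ⟨_, hexp⟩ := hnb
  obtain ⟨l, hl⟩ := hexp ⟨_, left_mem_segment ℝ _ _⟩
  have hxm : pos x ∈ {z ∈ P | ∀ y ∈ P, l y ≤ l z} := hl ▸ left_mem_segment ℝ _ _
  have hsm : pos s ∈ {z ∈ P | ∀ y ∈ P, l y ≤ l z} := hl ▸ right_mem_segment ℝ _ _
  have hls : l (pos s) = l (pos x) := le_antisymm (hxm.2 _ hsm.1) (hsm.2 _ hxm.1)
  have hmem : ∀ r, pos r ∈ P := fun r => extremePoints_subset (hpos r)
  have hlt : ∀ r, r ≠ x → r ≠ s → l (pos r) < l (pos x) := by
    intro r h1 h2
    refine lt_of_le_of_ne (hxm.2 _ (hmem r)) (fun h => ?_)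
    have : pos r ∈ segment ℝ (pos x) (pos s) := by
      rw [hl]
      exact ⟨hmem r, fun y hy => by rw [h]; exact hxm.2 y hy⟩
    rcases (mem_extremePoints_iff_forall_segment.mp (hpos r)).2 _ (hmem x) _ (hmem s) this with
      h | h
    · exact h1 (hinj h.symm)
    · exact h2 (hinj h.symm)
  have e1 := congrArg l e
  rw [map_smul, map_sub, hls, sub_self, smul_zero, map_sum] at e1
  have e2 : ∑ r, μ r * (l (pos x) - l (pos r)) = 0 := by
    rw [← neg_eq_zero, e1, ← Finset.sum_neg_distrib]
    exact Finset.sum_congr rfl fun r _ => by rw [map_smul, map_sub, smul_eq_mul]; ring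
  have e3 := (Finset.sum_eq_zero_iff_of_nonneg (s := Finset.univ)
    (f := fun r => μ r * (l (pos x) - l (pos r)))
    (fun r _ => mul_nonneg (hμ r) (sub_nonneg.mpr (hxm.2 _ (hmem r))))).mp e2
  intro r h1 h2
  rcases mul_eq_zero.mp (e3 r (Finset.mem_univ r)) with h | h
  · exact h
  · exact absurd h (sub_pos.mpr (hlt r h1 h2)).ne'

theorem geom_gen [DecidableEq L] (hP : P = convexHull ℝ (Set.range pos))
    (hpos : ∀ r, pos r ∈ P.extremePoints ℝ)
    (hinj : Function.Injective pos) (x y : L) :
    ∃ μ : L → ℝ, (∀ s, 0 ≤ μ s) ∧ (∀ s, ¬ IsEdge P (pos x) (pos s) → μ s = 0) ∧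
      pos y - pos x = ∑ s, μ s • (pos s - pos x) := by
  classical
  have hPc : Convex ℝ P := hP ▸ convex_convexHull ℝ _
  have hmem : ∀ r, pos r ∈ P := fun r => extremePoints_subset (hpos r)
  have hext := geom_ext hPc hpos hinj x
  -- generating sets
  let Gen : Finset L → Prop := fun G => x ∉ G ∧ ∀ y, ∃ μ : L → ℝ, (∀ s, 0 ≤ μ s) ∧
    (∀ s, s ∉ G → μ s = 0) ∧ pos y - pos x = ∑ s, μ s • (pos s - pos x)
  have hGen : ∃ G, Gen G := by
    refine ⟨Finset.univ.erase x, Finset.notMem_erase _ _, fun y => ?_⟩
    by_cases hyx : y = x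
    · exact ⟨fun _ => 0, fun _ => le_refl _, fun _ _ => rfl, by simp [hyx]⟩
    · refine ⟨fun s => if s = y then 1 else 0, fun s => by dsimp only; split_ifs <;> norm_num,
        fun s hs => ?_, by simp⟩
      have : s = x := by simpa using hs
      have hsy : s ≠ y := fun h => hyx (h ▸ this)
      simp [hsy]
  obtain ⟨G, hG, hmin⟩ : ∃ G, Gen G ∧ ∀ G', Gen G' → G.card ≤ G'.card := by
    obtain ⟨G0, hG0⟩ := hGen
    obtain ⟨G, hG, hmin⟩ := WellFounded.has_min (measure (fun G : Finset L => G.card)).wf
      {G | Gen G} ⟨G0, hG0⟩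
    exact ⟨G, hG, fun G' h => not_lt.mp (hmin G' h)⟩
  obtain ⟨hxG, hgen⟩ := hG
  have hedge : ∀ s ∈ G, IsEdge P (pos x) (pos s) := by
    intro s hs
    have hsx : s ≠ x := fun h => hxG (h ▸ hs)
    refine ⟨fun h => hsx (hinj h).symm, fun _ => ?_⟩
    rcases gordan (fun r => pos r - pos x) (fun r => r ∈ G ∧ r ≠ s)
      (Submodule.span ℝ {pos s - pos x}) with ⟨f, h1, h2⟩ | ⟨γ, h1, h2, ⟨r0, h3⟩, h4⟩
    · have hfs : f (pos s - pos x) = 0 := h1 _ (Submodule.mem_span_singleton_self _)
      have hfnn : ∀ r, 0 ≤ f (pos r - pos x) ∧ (f (pos r - pos x) = 0 →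
          ∃ m : ℝ, 0 ≤ m ∧ pos r - pos x = m • (pos s - pos x)) := by
        intro r
        obtain ⟨μ, m1, m2, m3⟩ := hgen r
        have m4 : ∀ t, 0 ≤ μ t * f (pos t - pos x) := by
          intro t
          by_cases ht : t ∈ G
          · by_cases hts : t = s
            · rw [hts, hfs, mul_zero]
            · exact mul_nonneg (m1 t) (h2 t ⟨ht, hts⟩).le
          · rw [m2 t ht, zero_mul]
        have m5 : f (pos r - pos x) = ∑ t, μ t * f (pos t - pos x) := by
          rw [m3, map_sum]
          exact Finset.sum_congr rfl fun t _ => by rw [map_smul, smul_eq_mul]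
        refine ⟨by rw [m5]; exact Finset.sum_nonneg fun t _ => m4 t, fun h0 => ?_⟩
        rw [m5] at h0
        have m6 := (Finset.sum_eq_zero_iff_of_nonneg (s := Finset.univ)
          (f := fun t => μ t * f (pos t - pos x)) (fun t _ => m4 t)).mp h0
        refine ⟨μ s, m1 s, ?_⟩
        rw [m3, Finset.sum_eq_single s]
        · intro t _ hts
          by_cases ht : t ∈ G
          · have := m6 t (Finset.mem_univ t)
            rcases mul_eq_zero.mp this with h | h
            · rw [h, zero_smul]
            · exact absurd h (h2 t ⟨ht, hts⟩).ne'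
          · rw [m2 t ht, zero_smul]
        · intro h; exact absurd (Finset.mem_univ _) h
      -- vertices in the zero set are `x` and `s`
      have hz : ∀ r, f (pos r - pos x) = 0 → r = x ∨ r = s := by
        intro r hr
        obtain ⟨m, hm0, hm⟩ := (hfnn r).2 hr
        rcases le_total m 1 with h | h
        · have : pos r ∈ segment ℝ (pos x) (pos s) := by
            refine ⟨1 - m, m, by linarith, hm0, by ring, ?_⟩
            have : pos r = pos x + m • (pos s - pos x) := by rw [← hm]; abel
            rw [this]; module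
          rcases (mem_extremePoints_iff_forall_segment.mp (hpos r)).2 _ (hmem x) _ (hmem s)
            this with h | h
          · exact Or.inl (hinj h.symm)
          · exact Or.inr (hinj h.symm)
        · have hmpos : 0 < m := lt_of_lt_of_le zero_lt_one h
          have : pos s ∈ segment ℝ (pos x) (pos r) := by
            refine ⟨1 - m⁻¹, m⁻¹, ?_, inv_nonneg.mpr hm0, by ring, ?_⟩
            · rw [sub_nonneg]; exact inv_le_one_of_one_le₀ h
            · have h5 : pos s - pos x = m⁻¹ • (pos r - pos x) := by
                rw [hm, smul_smul, inv_mul_cancel₀ hmpos.ne', one_smul]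
              have : pos s = pos x + m⁻¹ • (pos r - pos x) := by rw [← h5]; abel
              rw [this]; module
          rcases (mem_extremePoints_iff_forall_segment.mp (hpos s)).2 _ (hmem x) _ (hmem r)
            this with h | h
          · exact absurd (hinj h.symm) hsx
          · exact Or.inr (hinj h)
      refine ⟨-(LinearMap.toContinuousLinearMap f), ?_⟩
      have hval : ∀ z, (-(LinearMap.toContinuousLinearMap f)) z = - f z := fun z => rfl
      have hfP : ∀ z ∈ P, 0 ≤ f (z - pos x) := by
        intro z hzP
        rw [hP] at hzP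
        obtain ⟨w, w1, w2, w3⟩ := exists_weights pos hzP
        have : z - pos x = ∑ r, w r • (pos r - pos x) := by
          rw [w3]
          simp only [smul_sub, Finset.sum_sub_distrib]
          rw [← Finset.sum_smul, w2, one_smul]
        rw [this, map_sum]
        exact Finset.sum_nonneg fun r _ => by
          rw [map_smul, smul_eq_mul]; exact mul_nonneg (w1 r) (hfnn r).1
      ext z
      constructor
      · intro hzs
        refine ⟨hPc.segment_subset (hmem x) (hmem s) hzs, fun y hy => ?_⟩
        rw [hval, hval]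
        obtain ⟨a, b, ha, hb, hab, rfl⟩ := hzs
        have h6 := hfP y hy
        rw [map_sub] at h6 hfs
        rw [map_add, map_smul, map_smul, smul_eq_mul, smul_eq_mul]
        have h7 : f (pos s) = f (pos x) := by linarith
        rw [h7, ← add_mul, hab, one_mul]
        linarith
      · rintro ⟨hzP, hzmax⟩
        have h6 := hzmax (pos x) (hmem x)
        rw [hval, hval] at h6
        have h7 := hfP z hzP
        have h8 : f (z - pos x) = 0 := by
          rw [map_sub] at h7 ⊢; linarith
        rw [hP] at hzP
        obtain ⟨w, w1, w2, w3⟩ := exists_weights pos hzP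
        have h9 : z - pos x = ∑ r, w r • (pos r - pos x) := by
          rw [w3]
          simp only [smul_sub, Finset.sum_sub_distrib]
          rw [← Finset.sum_smul, w2, one_smul]
        have h10 : ∑ r, w r * f (pos r - pos x) = 0 := by
          rw [← h8, h9, map_sum]
          exact Finset.sum_congr rfl fun r _ => by rw [map_smul, smul_eq_mul]
        have h11 := (Finset.sum_eq_zero_iff_of_nonneg (s := Finset.univ)
          (f := fun r => w r * f (pos r - pos x))
          (fun r _ => mul_nonneg (w1 r) (hfnn r).1)).mp h10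
        have h12 : z - pos x = w s • (pos s - pos x) := by
          rw [h9, Finset.sum_eq_single s]
          · intro r _ hrs
            rcases mul_eq_zero.mp (h11 r (Finset.mem_univ r)) with h | h
            · rw [h, zero_smul]
            · rcases hz r h with h | h
              · rw [h, sub_self, smul_zero]
              · exact absurd h hrs
          · intro h; exact absurd (Finset.mem_univ _) h
        have h13 : w s ≤ 1 := by
          rw [← w2]; exact Finset.single_le_sum (fun r _ => w1 r) (Finset.mem_univ s)
        refine ⟨1 - w s, w s, by linarith, w1 s, by ring, ?_⟩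
        have : z = pos x + w s • (pos s - pos x) := by rw [← h12]; abel
        rw [this]; module
    · exfalso
      rw [Submodule.mem_span_singleton] at h4
      obtain ⟨α, h4⟩ := h4
      have hγs : γ s = 0 := h2 s (fun h => h.2 rfl)
      have hγx : γ x = 0 := h2 x (fun h => hxG h.1)
      rcases le_or_gt α 0 with hα | hα
      · have := hext (fun r => γ r + if r = s then -α else 0) (fun r => by
          refine add_nonneg (h1 r) ?_
          split_ifs
          · linarith
          · exact le_refl _) (by
          simp only [add_smul, Finset.sum_add_distrib, ite_smul, zero_smul,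
            Finset.sum_ite_eq', Finset.mem_univ, if_true]
          rw [← h4, neg_smul, add_neg_cancel]) r0 (by
            intro h; rw [h] at h3; exact absurd hγx h3.ne')
        have h5 : 0 ≤ (if r0 = s then -α else 0) := by
          split_ifs
          · linarith
          · exact le_refl _
        linarith
      · -- `G \ {s}` generates
        have : Gen (G.erase s) := by
          refine ⟨fun h => hxG (Finset.mem_of_mem_erase h), fun y => ?_⟩
          obtain ⟨μ, m1, m2, m3⟩ := hgen y
          have e5 : pos s - pos x = ∑ r, (γ r / α) • (pos r - pos x) := by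
            have : ∑ r, (γ r / α) • (pos r - pos x) = α⁻¹ • ∑ r, γ r • (pos r - pos x) := by
              rw [Finset.smul_sum]
              exact Finset.sum_congr rfl fun r _ => by rw [smul_smul, div_eq_inv_mul]
            rw [this, ← h4, smul_smul, inv_mul_cancel₀ hα.ne', one_smul]
          refine ⟨fun r => (if r = s then 0 else μ r) + μ s * (γ r / α), fun r => ?_,
            fun r hr => ?_, ?_⟩
          · refine add_nonneg ?_ (mul_nonneg (m1 s) (div_nonneg (h1 r) hα.le))
            split_ifs
            · exact le_refl _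
            · exact m1 r
          · by_cases hrs : r = s
            · rw [hrs]; simp [hγs]
            · have hrG : r ∉ G := fun h => hr (Finset.mem_erase.mpr ⟨hrs, h⟩)
              have : γ r = 0 := h2 r (fun h => hrG h.1)
              simp [hrs, this, m2 r hrG]
          · have : ∀ r, ((if r = s then 0 else μ r) + μ s * (γ r / α)) • (pos r - pos x) =
                μ r • (pos r - pos x) - (if r = s then μ s • (pos s - pos x) else 0) +
                μ s • ((γ r / α) • (pos r - pos x)) := by
              intro r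
              by_cases hrs : r = s
              · subst hrs; simp [hγs]
              · simp [hrs, add_smul, smul_smul]
            rw [Finset.sum_congr rfl fun r _ => this r, Finset.sum_add_distrib,
              Finset.sum_sub_distrib, ← m3, ← Finset.smul_sum, ← e5]
            simp
        have h5 := hmin _ this
        rw [Finset.card_erase_of_mem hs] at h5
        have h6 : 0 < G.card := Finset.card_pos.mpr ⟨s, hs⟩
        omega
  obtain ⟨μ, m1, m2, m3⟩ := hgen y
  exact ⟨μ, m1, fun s hs => m2 s (fun h => hs (hedge s h)), m3⟩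

end geom

theorem rlz_of_polytopal {L : Type*} [PartialOrder L] [Fintype L] (h : IsPolytopal L) :
    ∃ d : ℕ, Nonempty (Rlz L (EuclideanSpace ℝ (Fin d))) := by
  classical
  obtain ⟨d, P, c, hP, hc, φ, hφ⟩ := h
  refine ⟨d, ⟨?_⟩⟩
  set pos : L → EuclideanSpace ℝ (Fin d) := fun a => (φ a : EuclideanSpace ℝ (Fin d)) with hposdef
  have hpos : ∀ r, pos r ∈ P.extremePoints ℝ := fun r => (φ r).2
  have hinj : Function.Injective pos := fun a b h => φ.injective (Subtype.ext h)
  have hrange : Set.range pos = P.extremePoints ℝ := by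
    ext z
    constructor
    · rintro ⟨r, rfl⟩; exact hpos r
    · intro hz
      exact ⟨φ.symm ⟨z, hz⟩, by simp [hposdef]⟩
  have hPh : P = convexHull ℝ (Set.range pos) := by rw [hrange]; exact hull_vertices hP
  have hPc : Convex ℝ P := hPh ▸ convex_convexHull ℝ _
  have hstep : ∀ x y : P.extremePoints ℝ, Relation.ReflTransGen
      (fun x y : P.extremePoints ℝ => IsEdge P (x : EuclideanSpace ℝ (Fin d)) y ∧
          c x < c y) x y → x = y ∨ c x < c y := by
    intro x y hxy
    induction hxy with
    | refl => exact Or.inl rfl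
    | tail _ h ih =>
      rcases ih with ih | ih
      · rw [ih]; exact Or.inr h.2
      · exact Or.inr (ih.trans h.2)
  have hlt : ∀ {a b : L}, a < b → c (pos a) < c (pos b) := by
    intro a b hab
    rcases hstep _ _ ((hφ a b).mp hab.le) with h | h
    · exact absurd (φ.injective h) hab.ne
    · exact h
  have hsymm : ∀ {a b : L}, IsEdge P (pos a) (pos b) → IsEdge P (pos b) (pos a) :=
    fun h => ⟨h.1.symm, by rw [segment_symm]; exact h.2⟩
  have hlt' : ∀ {a b : L}, IsEdge P (pos a) (pos b) → c (pos a) < c (pos b) → a < b := by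
    intro a b h1 h2
    refine lt_of_le_of_ne ((hφ a b).mpr (Relation.ReflTransGen.single ⟨h1, h2⟩)) ?_
    rintro rfl
    exact lt_irrefl _ h2
  exact
    { pos := pos
      nb := fun a b => IsEdge P (pos a) (pos b)
      c := c
      nb_symm := hsymm
      nb_cmp := by
        intro a b h
        rcases lt_or_gt_of_ne (hc _ _ h) with h' | h'
        · exact Or.inl (hlt' h h')
        · exact Or.inr (hlt' (hsymm h) h')
      nb_cov := by
        intro a b hab
        rcases Relation.ReflTransGen.cases_head ((hφ a b).mp hab.lt.le) with h | ⟨z, hz1, hz2⟩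
        · exact absurd (φ.injective h) hab.lt.ne
        · obtain ⟨z', rfl⟩ := φ.surjective z
          have h1 : a < z' := hlt' hz1.1 hz1.2
          have h2 : z' ≤ b := (hφ z' b).mpr hz2
          rcases h2.lt_or_eq with h | h
          · exact absurd h (hab.2 h1)
          · rw [← h]; exact hz1.1
      c_lt := hlt
      gen := geom_gen hPh hpos hinj
      ray := fun x s hnb α μ _ hμ e => geom_ray hpos hPc hinj x s hnb α μ hμ e
      ext := geom_ext hPc hpos hinj }

end Pool.Agent.helper13.Orn
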