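import Mathlib
import Pool.Agent.helper13.Orn.Core
import Pool.Agent.helper13.Orn.Poly

/-!
# The ornamentation lattice of the complete digraph on three vertices
-/

namespace Pool.Agent.helper13.Orn

/-- the complete digraph on three vertices: all arcs `a → b` with `a ≠ b` -/
def K3 : Digraph (Fin 3) := ⟨fun a b => a ≠ b⟩

/-- six bits: the pairs `01, 02, 10, 12, 20, 21` -/
abbrev B6 := Bool × Bool × Bool × Bool × Bool × Bool

def bit (r : B6) : Fin 3 → Fin 3 → Bool :=
  ![![true, r.1, r.2.1], ![r.2.2.1, true, r.2.2.2.1], ![r.2.2.2.2.1, r.2.2.2.2.2, true]]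

def mkB (f : Fin 3 → Fin 3 → Bool) : B6 := (f 0 1, f 0 2, f 1 0, f 1 2, f 2 0, f 2 1)

/-- transitivity -/
def trB (r : B6) : Bool :=
  match r with
  | (ab, ac, ba, bc, ca, cb) =>
    (!(ab && bc) || ac) && (!(ac && cb) || ab) && (!(ba && ac) || bc) && (!(bc && ca) || ba) &&
      (!(ca && ab) || cb) && (!(cb && ba) || ca)

def leB (r s : B6) : Bool :=
  match r, s with
  | (ab, ac, ba, bc, ca, cb), (ab', ac', ba', bc', ca', cb') =>
    (!ab || ab') && (!ac || ac') && (!ba || ba') && (!bc || bc') && (!ca || ca') && (!cb || cb')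

theorem trB_iff : ∀ r : B6, trB r = true ↔
    ∀ a b c, bit r a b = true → bit r b c = true → bit r a c = true := by decide

theorem leB_iff (r s : B6) : leB r s = true ↔ ∀ a b, bit r a b = true → bit s a b = true := by
  obtain ⟨r1, r2, r3, r4, r5, r6⟩ := r
  obtain ⟨s1, s2, s3, s4, s5, s6⟩ := s
  constructor
  · intro h a b
    simp only [leB, Bool.and_eq_true, Bool.or_eq_true, Bool.not_eq_true'] at h
    obtain ⟨⟨⟨⟨⟨h1, h2⟩, h3⟩, h4⟩, h5⟩, h6⟩ := h
    fin_cases a <;> fin_cases b <;> simp [bit] <;> intro h' <;> simp_all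
  · intro h
    have h1 := h 0 1
    have h2 := h 0 2
    have h3 := h 1 0
    have h4 := h 1 2
    have h5 := h 2 0
    have h6 := h 2 1
    simp only [bit, Fin.isValue, Matrix.cons_val_zero, Matrix.cons_val_one, Matrix.cons_val] at *
    simp only [leB, Bool.and_eq_true, Bool.or_eq_true, Bool.not_eq_true']
    refine ⟨⟨⟨⟨⟨?_, ?_⟩, ?_⟩, ?_⟩, ?_⟩, ?_⟩
    all_goals
      first
      | (cases r1 <;> simp_all; done)
      | (cases r2 <;> simp_all; done)
      | (cases r3 <;> simp_all; done)
      | (cases r4 <;> simp_all; done)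
      | (cases r5 <;> simp_all; done)
      | (cases r6 <;> simp_all)

theorem bit_inj {r s : B6} (h : bit r = bit s) : r = s := by
  obtain ⟨r1, r2, r3, r4, r5, r6⟩ := r
  obtain ⟨s1, s2, s3, s4, s5, s6⟩ := s
  have h1 := congrFun (congrFun h 0) 1
  have h2 := congrFun (congrFun h 0) 2
  have h3 := congrFun (congrFun h 1) 0
  have h4 := congrFun (congrFun h 1) 2
  have h5 := congrFun (congrFun h 2) 0
  have h6 := congrFun (congrFun h 2) 1
  simp [bit] at h1 h2 h3 h4 h5 h6
  simp [h1, h2, h3, h4, h5, h6]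

theorem bit_diag (r : B6) (a : Fin 3) : bit r a a = true := by
  fin_cases a <;> rfl

theorem bit_mkB (f : Fin 3 → Fin 3 → Bool) {a b : Fin 3} (h : a ≠ b) : bit (mkB f) a b = f a b := by
  fin_cases a <;> fin_cases b <;> first | rfl | exact absurd rfl h

/-- The preorders on three points. -/
@[ext]
structure Pre3 where
  val : B6
  tr : trB val = true

noncomputable instance : Fintype Pre3 := Fintype.ofInjective Pre3.val (fun _ _ h => Pre3.ext h)

instance instPOT : PartialOrder Pre3 where
  le r s := leB r.val s.val = true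
  le_refl r := by
    change leB _ _ = true
    rw [leB_iff]; exact fun _ _ h => h
  le_trans r s t h1 h2 := by
    change leB _ _ = true at h1 h2 ⊢
    rw [leB_iff] at *
    exact fun a b h => h2 a b (h1 a b h)
  le_antisymm r s h1 h2 := by
    change leB _ _ = true at h1 h2
    rw [leB_iff] at h1 h2
    apply Pre3.ext
    apply bit_inj
    funext a b
    exact Bool.eq_iff_iff.mpr ⟨h1 a b, h2 a b⟩

theorem Pre3_le_iff (r s : Pre3) : r ≤ s ↔ leB r.val s.val = true := Iff.rfl

theorem Pre3_lt_iff (r s : Pre3) : r < s ↔ (leB r.val s.val = true ∧ ¬ leB s.val r.val = true) := by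
  rw [lt_iff_le_not_ge, Pre3_le_iff, Pre3_le_iff]

/-- the ornamentation of a preorder -/
def ofT (r : Pre3) : Ornamentation K3 where
  orn := fun v => {u | bit r.val u v = true}
  isOrnament := by
    intro v
    refine ⟨bit_diag _ _, fun u hu => ?_⟩
    by_cases huv : u = v
    · rw [huv]
    · exact Relation.ReflTransGen.single ⟨hu, bit_diag _ _, huv⟩
  nested := by
    intro u v huv w hw
    exact (trB_iff r.val).mp r.tr w u v hw huv

theorem ofT_le {r s : Pre3} : ofT r ≤ ofT s ↔ r ≤ s := by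
  rw [Pre3_le_iff, leB_iff]
  constructor
  · intro h a b hab
    exact h b hab
  · intro h b a hab
    exact h a b hab

theorem ofT_surj : Function.Surjective ofT := by
  classical
  intro O
  have key : ∀ a b, bit (mkB fun a b => decide (a ∈ O.orn b)) a b = true ↔ a ∈ O.orn b := by
    intro a b
    by_cases hab : a = b
    · rw [hab]
      simp only [bit_diag, true_iff]
      exact (O.isOrnament b).1
    · rw [bit_mkB _ hab]; simp
  refine ⟨⟨mkB (fun a b => decide (a ∈ O.orn b)), ?_⟩, ?_⟩
  · rw [trB_iff]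
    intro a b c hab hbc
    rw [key] at hab hbc ⊢
    exact O.nested b c hbc hab
  · apply Ornamentation.ext
    funext v
    ext u
    exact key u v

/-- the order isomorphism -/
noncomputable def isoT : Pre3 ≃o Ornamentation K3 where
  toEquiv := Equiv.ofBijective ofT ⟨fun r s h => le_antisymm (ofT_le.mp h.le) (ofT_le.mp h.ge),
    ofT_surj⟩
  map_rel_iff' := ofT_le

theorem IsPolytopal.of_iso {L L' : Type*} [PartialOrder L] [PartialOrder L'] (e : L ≃o L')
    (h : IsPolytopal L') : IsPolytopal L := by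
  obtain ⟨d, P, c, hP, hc, φ, hφ⟩ := h
  exact ⟨d, P, c, hP, hc, e.toEquiv.trans φ, fun a b => by
    rw [← e.le_iff_le, hφ]; rfl⟩

/-! ### the configuration -/

def Mi (i : Fin 3) : B6 := mkB fun a _ => decide (a ≠ i)
def mj (j : Fin 3) : B6 := mkB fun _ b => decide (b ≠ j)
def xij (i j : Fin 3) : B6 := mkB fun a b => decide (a ≠ i) && decide (b ≠ j)
def topB : B6 := mkB fun _ _ => true
def botB : B6 := mkB fun _ _ => false
def pB : B6 := mkB fun a b => decide (a = 0) && decide (b = 1)
def qB : B6 := mkB fun a b => decide (a = 1) && decide (b = 0)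

theorem tr_Mi : ∀ i, trB (Mi i) = true := by decide
theorem tr_mj : ∀ i, trB (mj i) = true := by decide
theorem tr_xij : ∀ i j, trB (xij i j) = true := by decide

theorem sq_mem : ∀ i j, ∀ y : B6, trB y = true → leB (xij i j) y = true →
    (decide (y = xij i j) || (decide (y = Mi i) || (decide (y = mj j) || decide (y = topB)))) = true
    := by decide

theorem sq_rel : ∀ i j, (leB (xij i j) (Mi i) = true ∧ ¬ leB (Mi i) (xij i j) = true) ∧
    (leB (xij i j) (mj j) = true ∧ ¬ leB (mj j) (xij i j) = true) ∧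
    ¬ leB (Mi i) (mj j) = true ∧ ¬ leB (mj j) (Mi i) = true ∧
    (leB (Mi i) topB = true ∧ ¬ leB topB (Mi i) = true) ∧
    (leB (mj j) topB = true ∧ ¬ leB topB (mj j) = true) := by decide

theorem dsq_mem : ∀ y : B6, trB y = true → leB y (xij 2 2) = true →
    (decide (y = xij 2 2) || (decide (y = pB) || (decide (y = qB) || decide (y = botB)))) = true
    := by decide

def eM (i : Fin 3) : Pre3 := ⟨Mi i, tr_Mi i⟩
def em (j : Fin 3) : Pre3 := ⟨mj j, tr_mj j⟩
def eX (i j : Fin 3) : Pre3 := ⟨xij i j, tr_xij i j⟩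
def eTop : Pre3 := ⟨topB, by decide⟩
def eBot : Pre3 := ⟨botB, by decide⟩
def eP : Pre3 := ⟨pB, by decide⟩
def eQ : Pre3 := ⟨qB, by decide⟩

theorem upsq (i j : Fin 3) : UpSq (eX i j) (eM i) (em j) eTop where
  mem := by
    rintro ⟨y, hy⟩ h
    have := sq_mem i j y hy h
    simp only [Bool.or_eq_true, decide_eq_true_eq] at this
    rcases this with e | e | e | e
    · exact Or.inl (Pre3.ext e)
    · exact Or.inr (Or.inl (Pre3.ext e))
    · exact Or.inr (Or.inr (Or.inl (Pre3.ext e)))
    · exact Or.inr (Or.inr (Or.inr (Pre3.ext e)))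
  xu := by rw [Pre3_lt_iff]; exact (sq_rel i j).1
  xv := by rw [Pre3_lt_iff]; exact (sq_rel i j).2.1
  uv := (sq_rel i j).2.2.1
  vu := (sq_rel i j).2.2.2.1
  ut := by rw [Pre3_lt_iff]; exact (sq_rel i j).2.2.2.2.1
  vt := by rw [Pre3_lt_iff]; exact (sq_rel i j).2.2.2.2.2

open OrderDual in
theorem dsq : UpSq (toDual (eX 2 2)) (toDual eP) (toDual eQ) (toDual eBot) where
  mem := by
    intro y h
    have := dsq_mem (ofDual y).val (ofDual y).tr h
    simp only [Bool.or_eq_true, decide_eq_true_eq] at this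
    rcases this with e | e | e | e
    · exact Or.inl (Pre3.ext e)
    · exact Or.inr (Or.inl (Pre3.ext e))
    · exact Or.inr (Or.inr (Or.inl (Pre3.ext e)))
    · exact Or.inr (Or.inr (Or.inr (Pre3.ext e)))
  xu := by rw [toDual_lt_toDual, Pre3_lt_iff]; decide
  xv := by rw [toDual_lt_toDual, Pre3_lt_iff]; decide
  uv := by rw [toDual_le_toDual, Pre3_le_iff]; decide
  vu := by rw [toDual_le_toDual, Pre3_le_iff]; decide
  ut := by rw [toDual_lt_toDual, Pre3_lt_iff]; decide
  vt := by rw [toDual_lt_toDual, Pre3_lt_iff]; decide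

theorem ne_of_val {r s : Pre3} (h : r.val ≠ s.val) : r ≠ s := fun e => h (congrArg Pre3.val e)

/-- the configuration in the lattice of preorders -/
def config : Config Pre3 where
  t := eTop
  b := eBot
  p := eP
  q := eQ
  E := eX 2 2
  u0 := eM 2
  w0 := em 2
  u := eM
  w := em
  x := eX
  sq := upsq
  sqE := upsq 2 2
  dsqE := dsq
  duu := fun i k h => ne_of_val ((by decide : ∀ i k, i ≠ k → Mi i ≠ Mi k) i k h)
  dww := fun i k h => ne_of_val ((by decide : ∀ i k, i ≠ k → mj i ≠ mj k) i k h)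
  duw := fun i k => ne_of_val ((by decide : ∀ i k, Mi i ≠ mj k) i k)
  dxu := fun i j k => ne_of_val ((by decide : ∀ i j k, xij i j ≠ Mi k) i j k)
  dxw := fun i j k => ne_of_val ((by decide : ∀ i j k, xij i j ≠ mj k) i j k)
  dxx := fun i j k l h => ne_of_val
    ((by decide : ∀ i j k l, (i ≠ k ∨ j ≠ l) → xij i j ≠ xij k l) i j k l h)

/-- The ornamentation lattice of the complete digraph on three vertices is not polytopal. -/
theorem K3_not_polytopal : ¬ IsPolytopal (Ornamentation K3) := by
  intro h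
  obtain ⟨d, ⟨R⟩⟩ := rlz_of_polytopal (IsPolytopal.of_iso isoT h)
  exact no_rlz config R

end Pool.Agent.helper13.Orn
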